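import Mathlib

set_option autoImplicit false

namespace Pool.Agent.Helper32.RK

/-- `B` acts on an abelian group of order `p ^ m`, `m ≤ M`, such that `z` acts nontrivially. -/
def Det (p M : ℕ) (B : Type) [Group B] (z : B) : Prop :=
  ∃ (V : Type) (_ : AddCommGroup V) (_ : DistribMulAction B V) (m : ℕ),
    m ≤ M ∧ Nat.card V = p ^ m ∧ ∃ v : V, z • v ≠ v

theorem Det.mono {p M M' : ℕ} {B : Type} [Group B] {z : B} (h : Det p M B z) (hM : M ≤ M') :
    Det p M' B z := by
  obtain ⟨V, i1, i2, m, hm, hc, hv⟩ := h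
  exact ⟨V, i1, i2, m, hm.trans hM, hc, hv⟩

/-- restriction along a homomorphism -/
theorem Det.comap {p M : ℕ} {B C : Type} [Group B] [Group C] (φ : B →* C) {z : B}
    (h : Det p M C (φ z)) : Det p M B z := by
  obtain ⟨V, i1, i2, m, hm, hc, hv⟩ := h
  exact ⟨V, i1, DistribMulAction.compHom V φ, m, hm, hc, hv⟩

section Induced

variable {G : Type} [Group G] (H : Subgroup G) (V : Type) [AddCommGroup V] [DistribMulAction H V]

/-- the induced module -/
def Ind : AddSubgroup (G → V) where
  carrier := {φ | ∀ (g : G) (h : H), φ (g * h) = h⁻¹ • φ g}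
  zero_mem' := fun g h => by simp
  add_mem' := by
    intro a b ha hb g h
    simp only [Pi.add_apply, smul_add]
    rw [ha g h, hb g h]
  neg_mem' := by
    intro a ha g h
    simp only [Pi.neg_apply, smul_neg]
    rw [ha g h]

theorem mem_Ind {φ : G → V} : φ ∈ Ind H V ↔ ∀ (g : G) (h : H), φ (g * h) = h⁻¹ • φ g := Iff.rfl

instance : DistribMulAction G (Ind H V) where
  smul x φ := ⟨fun g => φ.1 (x⁻¹ * g), fun g h => by
    change φ.1 (x⁻¹ * (g * h)) = h⁻¹ • φ.1 (x⁻¹ * g)
    rw [← mul_assoc]; exact φ.2 _ h⟩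
  one_smul φ := by
    apply Subtype.ext; funext g
    change φ.1 (1⁻¹ * g) = φ.1 g
    simp
  mul_smul x y φ := by
    apply Subtype.ext; funext g
    change φ.1 ((x * y)⁻¹ * g) = φ.1 (y⁻¹ * (x⁻¹ * g))
    rw [mul_inv_rev, mul_assoc]
  smul_zero x := rfl
  smul_add x φ ψ := rfl

theorem Ind_smul_apply (x : G) (φ : Ind H V) (g : G) : (x • φ).1 g = φ.1 (x⁻¹ * g) := rfl

theorem Ind_inj {φ ψ : Ind H V} (h : ∀ q : G ⧸ H, φ.1 q.out = ψ.1 q.out) : φ = ψ := by
  apply Subtype.ext; funext g
  have h1 := QuotientGroup.mk_out_eq_mul H g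
  obtain ⟨k, hk⟩ := h1
  have h2 : g = (g : G ⧸ H).out * (k⁻¹ : H) := by
    rw [hk]; simp
  rw [h2, φ.2, ψ.2, h (g : G ⧸ H)]

end Induced

/-- Induction of a detecting module from a subgroup of finite index. -/
theorem Det.induced {p M : ℕ} (hp : p.Prime) {G : Type} [Group G] [Finite G] (H : Subgroup G) {z : G}
    (hz : z ∈ H) (h : Det p M H ⟨z, hz⟩) : Det p (H.index * M) G z := by
  classical
  obtain ⟨V, i1, i2, m, hm, hc, v, hv⟩ := h
  have hfV : Finite V := Nat.finite_of_card_ne_zero (by rw [hc]; exact pow_ne_zero _ hp.ne_zero)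
  -- the order
  have h1 : Nat.card (Ind H V) ∣ p ^ (m * Nat.card G) := by
    have h2 : Nat.card (G → V) = p ^ (m * Nat.card G) := by
      rw [Nat.card_fun, hc, ← pow_mul]
    rw [← h2]
    exact AddSubgroup.card_addSubgroup_dvd_card _
  obtain ⟨m', -, hm'⟩ := (Nat.dvd_prime_pow hp).mp h1
  have h3 : Nat.card (Ind H V) ≤ p ^ (m * H.index) := by
    have h4 : Nat.card ((G ⧸ H) → V) = p ^ (m * H.index) := by
      rw [Nat.card_fun, hc, ← pow_mul]; rfl
    rw [← h4]
    refine Nat.card_le_card_of_injective (fun (φ : Ind H V) (q : G ⧸ H) => φ.1 q.out) ?_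
    intro φ ψ h
    exact Ind_inj H V (fun q => congrFun h q)
  have h5 : m' ≤ H.index * M := by
    rw [hm'] at h3
    have h6 := (Nat.pow_le_pow_iff_right hp.one_lt).mp h3
    calc m' ≤ m * H.index := h6
      _ ≤ M * H.index := Nat.mul_le_mul_right _ hm
      _ = H.index * M := mul_comm _ _
  refine ⟨Ind H V, inferInstance, inferInstance, m', h5, hm', ?_⟩
  -- the function supported on `H`
  let φ : G → V := fun g => if hg : g ∈ H then (⟨g, hg⟩ : H)⁻¹ • v else 0
  have hφ : φ ∈ Ind H V := by
    intro g k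
    by_cases hg : g ∈ H
    · have h7 : g * (k : G) ∈ H := H.mul_mem hg k.2
      have h8 : φ (g * k) = (⟨g * k, h7⟩ : H)⁻¹ • v := dif_pos h7
      have h9 : φ g = (⟨g, hg⟩ : H)⁻¹ • v := dif_pos hg
      rw [h8, h9, smul_smul]
      congr 1
      apply Subtype.ext
      simp
    · have h7 : ¬ g * (k : G) ∈ H := fun h => hg ((H.mul_mem_cancel_right k.2).mp h)
      have h8 : φ (g * k) = 0 := dif_neg h7
      have h9 : φ g = 0 := dif_neg hg
      rw [h8, h9, smul_zero]
  refine ⟨⟨φ, hφ⟩, fun h => ?_⟩
  have h10 := congrFun (congrArg Subtype.val h) 1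
  rw [Ind_smul_apply] at h10
  have h11 : φ 1 = v := by
    have : φ 1 = (⟨1, H.one_mem⟩ : H)⁻¹ • v := dif_pos H.one_mem
    rw [this]
    have h12 : (⟨1, H.one_mem⟩ : H)⁻¹ = 1 := by
      apply Subtype.ext; simp
    rw [h12, one_smul]
  have h13 : φ (z⁻¹ * 1) = (⟨z, hz⟩ : H) • v := by
    have h14 : z⁻¹ * 1 ∈ H := by rw [mul_one]; exact H.inv_mem hz
    have : φ (z⁻¹ * 1) = (⟨z⁻¹ * 1, h14⟩ : H)⁻¹ • v := dif_pos h14
    rw [this]
    congr 1
    apply Subtype.ext
    simp
  change φ (z⁻¹ * 1) = φ 1 at h10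
  rw [h13, h11] at h10
  exact hv h10

/-- The span of an orbit: `B` acts on an abelian group `Ω`, `ω` is killed by `p ^ L`, all translates
of `ω` lie in the group generated by at most `N` elements and `z` moves `ω`. -/
theorem det_of_orbit {p : ℕ} (hp : p.Prime) {B : Type} [Group B] {Ω : Type} [AddCommGroup Ω]
    [DistribMulAction B Ω] {L N : ℕ} {z : B} (ω : Ω) (hL : ∀ x : Ω, p ^ L • x = 0)
    (T : Finset Ω) (hT : T.card ≤ N) (hω : ∀ b : B, b • ω ∈ AddSubgroup.closure (T : Set Ω))
    (hz : z • ω ≠ ω) : Det p (N * L) B z := by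
  classical
  set S : AddSubgroup Ω := AddSubgroup.closure (Set.range fun b : B => b • ω) with hS
  have hST : S ≤ AddSubgroup.closure (T : Set Ω) := by
    rw [hS, AddSubgroup.closure_le]
    rintro _ ⟨b, rfl⟩
    exact hω b
  -- the closure of `T` is finite
  have hsurj : Function.Surjective (fun (a : T → ZMod (p ^ L)) =>
      (⟨∑ t : T, (a t).val • (t : Ω), AddSubgroup.sum_mem _ fun t _ =>
        AddSubgroup.nsmul_mem _ (AddSubgroup.subset_closure t.2) _⟩ :
        AddSubgroup.closure (T : Set Ω))) := by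
    have hne : NeZero (p ^ L) := ⟨pow_ne_zero _ hp.ne_zero⟩
    have key : ∀ (x y : ZMod (p ^ L)) (t : Ω), (x + y).val • t = x.val • t + y.val • t := by
      intro x y t
      rw [ZMod.val_add, ← add_smul]
      conv_rhs => rw [← Nat.div_add_mod (x.val + y.val) (p ^ L)]
      rw [add_smul, mul_comm, mul_smul, hL, smul_zero, zero_add]
    have keyneg : ∀ (x : ZMod (p ^ L)) (t : Ω), (-x).val • t = -(x.val • t) := by
      intro x t
      rw [eq_neg_iff_add_eq_zero, ← key]
      simp
    rintro ⟨x, hx⟩
    induction hx using AddSubgroup.closure_induction with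
    | mem x hx =>
      rcases Nat.eq_zero_or_pos L with h0 | h0
      · refine ⟨0, ?_⟩
        apply Subtype.ext
        have h1 := hL x
        rw [h0, pow_zero, one_smul] at h1
        simp [h1]
      · refine ⟨Pi.single ⟨x, hx⟩ 1, ?_⟩
        apply Subtype.ext
        change ∑ t : T, ((Pi.single (⟨x, hx⟩ : T) (1 : ZMod (p ^ L)) : T → ZMod (p ^ L)) t).val •
          (t : Ω) = x
        rw [Finset.sum_eq_single (⟨x, hx⟩ : T)]
        · rw [Pi.single_eq_same]
          have : Fact (1 < p ^ L) := ⟨Nat.one_lt_pow (by omega) hp.one_lt⟩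
          rw [ZMod.val_one, one_smul]
        · intro b _ hb
          rw [Pi.single_eq_of_ne hb]
          simp
        · intro h; exact absurd (Finset.mem_univ _) h
    | zero => exact ⟨0, by apply Subtype.ext; simp⟩
    | add x y hx hy h1 h2 =>
      obtain ⟨a, ha⟩ := h1
      obtain ⟨b, hb⟩ := h2
      refine ⟨a + b, ?_⟩
      apply Subtype.ext
      have ha' := congrArg Subtype.val ha
      have hb' := congrArg Subtype.val hb
      simp only at ha' hb' ⊢
      rw [← ha', ← hb', ← Finset.sum_add_distrib]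
      exact Finset.sum_congr rfl fun t _ => key _ _ _
    | neg x hx h1 =>
      obtain ⟨a, ha⟩ := h1
      refine ⟨-a, ?_⟩
      apply Subtype.ext
      have ha' := congrArg Subtype.val ha
      simp only at ha' ⊢
      rw [← ha', ← Finset.sum_neg_distrib]
      exact Finset.sum_congr rfl fun t _ => keyneg _ _
  have hne : NeZero (p ^ L) := ⟨pow_ne_zero _ hp.ne_zero⟩
  have hfin : Finite (AddSubgroup.closure (T : Set Ω)) := Finite.of_surjective _ hsurj
  have hcard : Nat.card (AddSubgroup.closure (T : Set Ω)) ≤ p ^ (N * L) := by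
    refine (Nat.card_le_card_of_surjective _ hsurj).trans ?_
    rw [Nat.card_fun, Nat.card_zmod, ← pow_mul, Nat.card_eq_fintype_card, Fintype.card_coe, mul_comm]
    exact Nat.pow_le_pow_right hp.pos (Nat.mul_le_mul_right _ hT)
  have hSfin : Finite S := Finite.of_injective _ (AddSubgroup.inclusion_injective hST)
  have hcardS : Nat.card S ≤ p ^ (N * L) :=
    (Nat.card_le_card_of_injective _ (AddSubgroup.inclusion_injective hST)).trans hcard
  -- the order of `S` is a power of `p`
  obtain ⟨m, hm⟩ : ∃ m, Nat.card S = p ^ m := by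
    have h1 : IsPGroup p (Multiplicative S) := by
      intro g
      refine ⟨L, ?_⟩
      apply Multiplicative.toAdd.injective
      rw [toAdd_pow, toAdd_one]
      apply Subtype.ext
      rw [AddSubgroup.coe_nsmul]
      exact hL _
    have hfp : Fact p.Prime := ⟨hp⟩
    obtain ⟨m, hm⟩ := IsPGroup.iff_card.mp h1
    exact ⟨m, hm⟩
  have hstab : ∀ (b : B) (x : Ω), x ∈ S → b • x ∈ S := by
    intro b x hx
    rw [hS] at hx
    induction hx using AddSubgroup.closure_induction with
    | mem x hx =>
      obtain ⟨c, rfl⟩ := hx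
      exact AddSubgroup.subset_closure ⟨b * c, by simp [mul_smul]⟩
    | zero => rw [smul_zero]; exact S.zero_mem
    | add x y _ _ h1 h2 => rw [smul_add]; exact S.add_mem h1 h2
    | neg x _ h1 => rw [smul_neg]; exact S.neg_mem h1
  let act : DistribMulAction B S :=
    { smul := fun b x => ⟨b • x.1, hstab b x.1 x.2⟩
      one_smul := fun x => Subtype.ext (one_smul B x.1)
      mul_smul := fun b c x => Subtype.ext (mul_smul b c x.1)
      smul_zero := fun b => Subtype.ext (smul_zero b)
      smul_add := fun b x y => Subtype.ext (smul_add b x.1 y.1) }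
  refine ⟨S, inferInstance, act, m, ?_, hm, ⟨ω, ?_⟩, fun h => hz ?_⟩
  · rw [hm] at hcardS
    exact (Nat.pow_le_pow_iff_right hp.one_lt).mp hcardS
  · exact AddSubgroup.subset_closure ⟨1, by simp⟩
  · exact congrArg Subtype.val h

/-- functions on `B` with the action of `B` by right translation of the argument -/
def RFun (B A : Type) : Type := B → A

instance (B A : Type) [AddCommGroup A] : AddCommGroup (RFun B A) :=
  inferInstanceAs (AddCommGroup (B → A))

instance (B A : Type) [Group B] [AddCommGroup A] : DistribMulAction B (RFun B A) where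
  smul b f := fun x => f (x * b)
  one_smul f := by
    funext x
    change f (x * 1) = f x
    rw [mul_one]
  mul_smul b c f := by
    funext x
    change f (x * (b * c)) = f ((x * b) * c)
    rw [mul_assoc]
  smul_zero b := rfl
  smul_add b f g := rfl

/-- functions on `B` with the action of `B` by left translation of the argument -/
def LFun (B A : Type) : Type := B → A

instance (B A : Type) [AddCommGroup A] : AddCommGroup (LFun B A) :=
  inferInstanceAs (AddCommGroup (B → A))

instance (B A : Type) [Group B] [AddCommGroup A] : DistribMulAction B (LFun B A) where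
  smul b f := fun x => f (b⁻¹ * x)
  one_smul f := by
    funext x
    change f (1⁻¹ * x) = f x
    simp
  mul_smul b c f := by
    funext x
    change f ((b * c)⁻¹ * x) = f (c⁻¹ * (b⁻¹ * x))
    rw [mul_inv_rev, mul_assoc]
  smul_zero b := rfl
  smul_add b f g := rfl

/-- Detection by a function whose right translates lie in the group generated by `N` functions. -/
theorem det_of_fun {p : ℕ} (hp : p.Prime) {B : Type} [Group B] {A : Type} [AddCommGroup A]
    {L N : ℕ} {z : B} (f : B → A) (hL : ∀ a : A, p ^ L • a = 0)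
    (T : Finset (B → A)) (hT : T.card ≤ N)
    (hf : ∀ b : B, (fun x => f (x * b)) ∈ AddSubgroup.closure (T : Set (B → A)))
    (x₀ : B) (hz : f (x₀ * z) ≠ f x₀) : Det p (N * L) B z := by
  refine det_of_orbit (Ω := RFun B A) hp f (fun g => ?_) T hT hf (fun h => hz (congrFun h x₀))
  funext x
  exact hL (g x)

/-- Detection by a function whose left translates lie in the group generated by `N` functions. -/
theorem det_of_fun_left {p : ℕ} (hp : p.Prime) {B : Type} [Group B] {A : Type} [AddCommGroup A]
    {L N : ℕ} {z : B} (f : B → A) (hL : ∀ a : A, p ^ L • a = 0)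
    (T : Finset (B → A)) (hT : T.card ≤ N)
    (hf : ∀ b : B, (fun x => f (b * x)) ∈ AddSubgroup.closure (T : Set (B → A)))
    (x₀ : B) (hz : f (z * x₀) ≠ f x₀) : Det p (N * L) B z := by
  refine det_of_orbit (Ω := LFun B A) hp f (fun g => ?_) T hT (fun b => hf b⁻¹) (fun h => hz ?_)
  · funext x
    exact hL (g x)
  · have h1 : f (z⁻¹ * (z * x₀)) = f (z * x₀) := congrFun h (z * x₀)
    rw [inv_mul_cancel_left] at h1
    exact h1.symm

end Pool.Agent.Helper32.RK
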