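import Pool.Agent.Helper32.RK.End1

set_option autoImplicit false

namespace Pool.Agent.Helper32.RK

/-- A nontrivial normal subgroup of a finite `p`-group meets the centre in an element of order `p`. -/
theorem exists_central_order {p : ℕ} (hp : p.Prime) {G : Type} [Group G] [Finite G]
    (hG : IsPGroup p G) (N : Subgroup G) [N.Normal] (hN : N ≠ ⊥) :
    ∃ z ∈ N, z ∈ Subgroup.center G ∧ orderOf z = p := by
  have hfp : Fact p.Prime := ⟨hp⟩
  let : MulAction G N := MulAction.compHom N (MulAut.conjNormal : G →* MulAut N)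
  have hact : ∀ (g : G) (x : N), ((g • x : N) : G) = g * x * g⁻¹ := fun g x =>
    MulAut.conjNormal_apply g x
  have hN1 : p ∣ Nat.card N := by
    rcases (hG.to_subgroup N).card_eq_or_dvd with h | h
    · exact absurd (Subgroup.card_eq_one.mp h) hN
    · exact h
  have h1 : (1 : N) ∈ MulAction.fixedPoints G N := by
    intro g
    apply Subtype.ext
    rw [hact]
    simp
  obtain ⟨b, hb, hb1⟩ := hG.exists_fixed_point_of_prime_dvd_card_of_fixed_point N hN1 h1
  have hbc : (b : G) ∈ Subgroup.center G := by
    rw [Subgroup.mem_center_iff]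
    intro g
    have h2 := congrArg Subtype.val (hb g)
    rw [hact] at h2
    calc g * b = (g * b * g⁻¹) * g := by group
      _ = b * g := by rw [h2]
  have hb1' : (b : G) ≠ 1 := fun h => hb1 (Subtype.ext h.symm)
  obtain ⟨k, hk⟩ := (IsPGroup.iff_orderOf.mp hG) (b : G)
  have hk0 : k ≠ 0 := by
    rintro rfl
    rw [pow_zero, orderOf_eq_one_iff] at hk
    exact hb1' hk
  refine ⟨(b : G) ^ p ^ (k - 1), N.pow_mem b.2 _, Subgroup.pow_mem _ hbc _, ?_⟩
  rw [orderOf_pow' _ (pow_ne_zero _ hp.ne_zero), hk, Nat.gcd_eq_right (pow_dvd_pow p (by omega))]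
  rw [Nat.div_eq_iff_eq_mul_left (pow_pos hp.pos _) (pow_dvd_pow p (by omega)), ← pow_succ']
  congr 1; omega

/-- Faithful action on an abelian group of order `p ^ m`, `m ≤ N`. -/
def Fai (p N : ℕ) (G : Type) [Group G] : Prop :=
  ∃ (V : Type) (_ : AddCommGroup V) (_ : DistribMulAction G V) (m : ℕ),
    m ≤ N ∧ Nat.card V = p ^ m ∧ ∀ g : G, (∀ v : V, g • v = v) → g = 1

theorem Fai.mono {p N N' : ℕ} {G : Type} [Group G] (h : Fai p N G) (hN : N ≤ N') :
    Fai p N' G := by
  obtain ⟨V, i1, i2, m, hm, hc, hv⟩ := h
  exact ⟨V, i1, i2, m, hm.trans hN, hc, hv⟩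

/-- the kernel of an action -/
def ker (G V : Type) [Group G] [AddCommGroup V] [DistribMulAction G V] : Subgroup G :=
  (MulAction.toPermHom G V).ker

theorem mem_ker {G V : Type} [Group G] [AddCommGroup V] [DistribMulAction G V] {g : G} :
    g ∈ ker G V ↔ ∀ v : V, g • v = v := by
  rw [ker, MonoidHom.mem_ker, Equiv.ext_iff]
  rfl

instance {G V : Type} [Group G] [AddCommGroup V] [DistribMulAction G V] : (ker G V).Normal :=
  inferInstanceAs (MulAction.toPermHom G V).ker.Normal

/-- If every central element of order `p` is detected in size `M` then a group of order `p ^ n` acts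
faithfully in size `n * M`. -/
theorem fai_of_det {p : ℕ} (hp : p.Prime) {G : Type} [Group G] {n M : ℕ}
    (hG : Nat.card G = p ^ n)
    (h : ∀ z : G, z ∈ Subgroup.center G → orderOf z = p → Det p M G z) : Fai p (n * M) G := by
  have hfin : Finite G := Nat.finite_of_card_ne_zero (by rw [hG]; exact pow_ne_zero _ hp.ne_zero)
  have hpG : IsPGroup p G := IsPGroup.of_card hG
  have key : ∀ (j : ℕ) (V : Type) (i1 : AddCommGroup V) (i2 : DistribMulAction G V) (m : ℕ),
      Nat.card V = p ^ m → Nat.card (ker G V) ∣ p ^ j → Fai p (m + j * M) G := by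
    intro j
    induction j with
    | zero =>
      intro V i1 i2 m hV hk
      refine ⟨V, i1, i2, m, by omega, hV, fun g hg => ?_⟩
      rw [pow_zero, Nat.dvd_one, Subgroup.card_eq_one] at hk
      have h1 : g ∈ ker G V := mem_ker.mpr hg
      rw [hk] at h1
      exact Subgroup.mem_bot.mp h1
    | succ j ih =>
      intro V i1 i2 m hV hk
      by_cases hbot : ker G V = ⊥
      · refine ⟨V, i1, i2, m, by omega, hV, fun g hg => ?_⟩
        have h1 : g ∈ ker G V := mem_ker.mpr hg
        rw [hbot] at h1
        exact Subgroup.mem_bot.mp h1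
      · obtain ⟨z, hz, hzc, hzo⟩ := exists_central_order hp hpG (ker G V) hbot
        obtain ⟨W, j1, j2, m', hm', hW, w, hw⟩ := h z hzc hzo
        have h2 : Nat.card (ker G (V × W)) ∣ p ^ j := by
          have h3 : ker G (V × W) ≤ ker G V := by
            intro g hg
            rw [mem_ker] at hg ⊢
            intro v
            exact congrArg Prod.fst (hg (v, 0))
          have h4 : ker G (V × W) ≠ ker G V := by
            intro h5
            rw [← h5, mem_ker] at hz
            exact hw (congrArg Prod.snd (hz (0, w)))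
          obtain ⟨a, -, ha⟩ := (Nat.dvd_prime_pow hp).mp hk
          have h6 : Nat.card (ker G (V × W)) ∣ p ^ a := by
            rw [← ha]
            exact Subgroup.card_dvd_of_le h3
          obtain ⟨b, hb, hb'⟩ := (Nat.dvd_prime_pow hp).mp h6
          have h7 : b ≠ a := by
            rintro rfl
            apply h4
            apply Subgroup.eq_of_le_of_card_ge h3
            rw [ha, hb']
          have h8 : a ≤ j + 1 := by
            rw [ha] at hk
            exact (Nat.pow_dvd_pow_iff_le_right hp.one_lt).mp hk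
          rw [hb']
          exact pow_dvd_pow p (by omega)
        refine (ih (V × W) inferInstance inferInstance (m + m') ?_ h2).mono ?_
        · rw [Nat.card_prod, hV, hW, pow_add]
        · nlinarith
  have h0 := key n PUnit inferInstance inferInstance 0 (by simp) (by
    rw [← hG]; exact Subgroup.card_subgroup_dvd_card _)
  simpa using h0

end Pool.Agent.Helper32.RK
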