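import Pool.Agent.Helper32.RK.End2

set_option autoImplicit false

namespace Pool.Agent.Helper32.RK

open scoped DirectSum

/-- an abelian group containing every abelian group of order at most `p ^ N` as a direct factor -/
abbrev WW (p N : ℕ) : Type := ∀ x : Fin N × Fin (N + 1), ZMod (p ^ (x.2 : ℕ))

theorem exists_compl {p N m : ℕ} (hp : p.Prime) (hm : m ≤ N) (V : Type) [AddCommGroup V]
    (hV : Nat.card V = p ^ m) : ∃ (V' : Type) (_ : AddCommGroup V'), Nonempty (V × V' ≃+ WW p N) := by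
  classical
  have hfin : Finite V := Nat.finite_of_card_ne_zero (by rw [hV]; exact pow_ne_zero _ hp.ne_zero)
  obtain ⟨ι, hι, n, hn, ⟨e⟩⟩ := AddCommGroup.equiv_directSum_zmod_of_finite' V
  have hcard : ∏ i, n i = p ^ m := by
    rw [← hV, Nat.card_congr e.toEquiv, Nat.card_congr (DirectSum.addEquivProd _).toEquiv,
      Nat.card_pi]
    exact Finset.prod_congr rfl fun i _ => (Nat.card_zmod _).symm
  have h1 : ∀ i, ∃ k, n i = p ^ k := fun i => by
    have h2 : n i ∣ p ^ m := by rw [← hcard]; exact Finset.dvd_prod_of_mem _ (Finset.mem_univ i)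
    obtain ⟨k, -, hk⟩ := (Nat.dvd_prime_pow hp).mp h2
    exact ⟨k, hk⟩
  choose k hk using h1
  have hk1 : ∀ i, 1 ≤ k i := fun i => by
    rcases Nat.eq_zero_or_pos (k i) with h | h
    · have h2 := hn i
      rw [hk i, h, pow_zero] at h2
      omega
    · exact h
  have hsum : ∑ i, k i = m := by
    apply Nat.pow_right_injective hp.two_le
    change p ^ _ = p ^ m
    rw [← hcard, ← Finset.prod_pow_eq_pow_sum]
    exact Finset.prod_congr rfl fun i _ => (hk i).symm
  have hkN : ∀ i, k i < N + 1 := fun i => by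
    have h2 : k i ≤ ∑ i, k i := Finset.single_le_sum (fun _ _ => Nat.zero_le _) (Finset.mem_univ i)
    omega
  have hcι : Fintype.card ι ≤ Fintype.card (Fin N) := by
    rw [Fintype.card_fin]
    calc Fintype.card ι = ∑ _i : ι, 1 := by simp
      _ ≤ ∑ i, k i := Finset.sum_le_sum fun i _ => hk1 i
      _ ≤ N := by omega
  obtain ⟨a⟩ := Function.Embedding.nonempty_of_card_le hcι
  let κ : ι → Fin N × Fin (N + 1) := fun i => (a i, ⟨k i, hkN i⟩)
  have hκ : Function.Injective κ := fun i j h => a.injective (congrArg Prod.fst h)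
  have hnκ : n = fun i => p ^ ((κ i).2 : ℕ) := funext hk
  clear_value κ
  subst hnκ
  let β : Fin N × Fin (N + 1) → Type := fun x => ZMod (p ^ (x.2 : ℕ))
  let E : ι ⊕ ((Set.range κ)ᶜ : Set _) ≃ Fin N × Fin (N + 1) :=
    (Equiv.sumCongr (Equiv.ofInjective κ hκ) (Equiv.refl _)).trans (Equiv.Set.sumCompl (Set.range κ))
  refine ⟨∀ y : ((Set.range κ)ᶜ : Set _), ZMod (p ^ (y.1.2 : ℕ)), inferInstance, ⟨?_⟩⟩
  let e1 : V ≃ₗ[ℤ] (∀ i, ZMod (p ^ ((κ i).2 : ℕ))) :=
    (e.trans (DirectSum.addEquivProd _)).toIntLinearEquiv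
  let e2 : (∀ y : ι ⊕ ((Set.range κ)ᶜ : Set _), ZMod (p ^ ((E y).2 : ℕ))) ≃ₗ[ℤ]
      (∀ x : Fin N × Fin (N + 1), ZMod (p ^ (x.2 : ℕ))) :=
    LinearEquiv.piCongrLeft ℤ (fun x : Fin N × Fin (N + 1) => ZMod (p ^ (x.2 : ℕ))) E
  let e3 : (∀ y : ι ⊕ ((Set.range κ)ᶜ : Set _), ZMod (p ^ ((E y).2 : ℕ))) ≃ₗ[ℤ]
      (∀ i : ι, ZMod (p ^ ((E (Sum.inl i)).2 : ℕ))) ×
        (∀ y : ((Set.range κ)ᶜ : Set _), ZMod (p ^ ((E (Sum.inr y)).2 : ℕ))) :=
    LinearEquiv.sumPiEquivProdPi ℤ _ _ _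
  let e4 : (V × (∀ y : ((Set.range κ)ᶜ : Set _), ZMod (p ^ (y.1.2 : ℕ)))) ≃ₗ[ℤ]
      (∀ i : ι, ZMod (p ^ ((κ i).2 : ℕ))) ×
        (∀ y : ((Set.range κ)ᶜ : Set _), ZMod (p ^ (y.1.2 : ℕ))) :=
    LinearEquiv.prodCongr e1 (LinearEquiv.refl _ _)
  exact ((e4.trans e3.symm).trans e2).toAddEquiv

/-- the group of additive permutations -/
def AddPerm (W : Type) [AddCommGroup W] : Subgroup (Equiv.Perm W) where
  carrier := {σ | ∀ a b, σ (a + b) = σ a + σ b}
  one_mem' := fun a b => rfl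
  mul_mem' := by
    intro σ τ hσ hτ a b
    rw [Equiv.Perm.mul_apply, Equiv.Perm.mul_apply, Equiv.Perm.mul_apply, hτ, hσ]
  inv_mem' := by
    intro σ hσ a b
    rw [Equiv.Perm.inv_eq_iff_eq, hσ]
    simp

theorem card_WW_le {p : ℕ} (hp : p.Prime) (N : ℕ) : Nat.card (WW p N) ≤ p ^ (N * (N + 1) * N) := by
  rw [Nat.card_pi]
  simp only [Nat.card_zmod]
  rw [Finset.prod_pow_eq_pow_sum]
  apply Nat.pow_le_pow_right hp.pos
  calc ∑ x : Fin N × Fin (N + 1), (x.2 : ℕ) ≤ ∑ _x : Fin N × Fin (N + 1), N :=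
        Finset.sum_le_sum fun x _ => by omega
    _ = N * (N + 1) * N := by simp

theorem finite_WW {p : ℕ} (hp : p.Prime) (N : ℕ) : Finite (WW p N) := by
  have : ∀ x : Fin N × Fin (N + 1), NeZero (p ^ (x.2 : ℕ)) := fun x => ⟨pow_ne_zero _ hp.ne_zero⟩
  infer_instance

theorem card_AddPerm_le {p : ℕ} (hp : p.Prime) (N : ℕ) :
    Nat.card (AddPerm (WW p N)) ≤ p ^ ((N * (N + 1) * N) * (N * (N + 1))) := by
  classical
  have hfin := finite_WW hp N
  have h1 : Function.Injective (fun (σ : AddPerm (WW p N)) (x : Fin N × Fin (N + 1)) =>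
      (σ : Equiv.Perm (WW p N)) (Pi.single x 1)) := by
    intro σ τ h
    let f : WW p N →+ WW p N := AddMonoidHom.mk' (σ : Equiv.Perm (WW p N)) σ.2
    let g : WW p N →+ WW p N := AddMonoidHom.mk' (τ : Equiv.Perm (WW p N)) τ.2
    have h2 : f = g := by
      apply AddMonoidHom.functions_ext
      intro x a
      have h3 : f (Pi.single x 1) = g (Pi.single x 1) := congrFun h x
      obtain ⟨k, rfl⟩ := ZMod.intCast_surjective a
      have h4 : (Pi.single x ((k : ℤ) : ZMod (p ^ (x.2 : ℕ))) : WW p N) = k • Pi.single x 1 := by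
        funext y
        rw [Pi.smul_apply]
        by_cases hy : y = x
        · subst hy
          rw [Pi.single_eq_same, Pi.single_eq_same, zsmul_one]
        · rw [Pi.single_eq_of_ne hy, Pi.single_eq_of_ne hy, smul_zero]
      rw [h4, map_zsmul, map_zsmul, h3]
    apply Subtype.ext
    apply Equiv.ext
    intro w
    exact DFunLike.congr_fun h2 w
  refine (Nat.card_le_card_of_injective _ h1).trans ?_
  rw [Nat.card_fun]
  have h5 : Nat.card (Fin N × Fin (N + 1)) = N * (N + 1) := by simp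
  rw [h5, pow_mul p]
  exact Nat.pow_le_pow_left (card_WW_le hp N) _

/-- a faithful module gives an embedding in the additive permutations of `WW p N` -/
theorem Fai.embed {p N : ℕ} (hp : p.Prime) {P : Type} [Group P] (h : Fai p N P) :
    ∃ φ : P →* AddPerm (WW p N), Function.Injective φ := by
  obtain ⟨V, i1, i2, m, hm, hV, hf⟩ := h
  obtain ⟨V', j1, ⟨e⟩⟩ := exists_compl hp hm V hV
  let F : P → Equiv.Perm (V × V') := fun x => Equiv.prodCongr (MulAction.toPerm x) (Equiv.refl V')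
  have hF : ∀ x (u : V × V'), F x u = (x • u.1, u.2) := fun x u => rfl
  let Φ : P → Equiv.Perm (WW p N) := fun x => (e.toEquiv.symm.trans (F x)).trans e.toEquiv
  have hΦ : ∀ x w, Φ x w = e (x • (e.symm w).1, (e.symm w).2) := fun x w => rfl
  have hadd : ∀ x, Φ x ∈ AddPerm (WW p N) := by
    intro x a b
    rw [hΦ, hΦ, hΦ, ← map_add, map_add]
    congr 1
    ext
    · simp
    · simp
  let φ : P →* AddPerm (WW p N) :=
    { toFun := fun x => ⟨Φ x, hadd x⟩
      map_one' := by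
        apply Subtype.ext; apply Equiv.ext; intro w
        change Φ 1 w = w
        rw [hΦ, one_smul]
        simp
      map_mul' := by
        intro x y
        apply Subtype.ext; apply Equiv.ext; intro w
        change Φ (x * y) w = Φ x (Φ y w)
        rw [hΦ, hΦ, hΦ]
        simp [mul_smul] }
  refine ⟨φ, ?_⟩
  rw [injective_iff_map_eq_one]
  intro x hx
  apply hf
  intro v
  have h1 : Φ x (e (v, 0)) = e (v, 0) := by
    have h2 := congrArg Subtype.val hx
    exact DFunLike.congr_fun h2 (e (v, 0))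
  rw [hΦ] at h1
  have h3 := e.injective h1
  simpa using congrArg Prod.fst h3

/-- Sylow: embeddings of `p`-groups into `Γ` can be moved in one Sylow subgroup. -/
theorem sylow_universal {p : ℕ} (hp : p.Prime) (Γ : Type) [Group Γ] [Finite Γ] {L : ℕ}
    (hΓ : Nat.card Γ ≤ p ^ L) : ∃ (U : Type) (_ : Group U) (M : ℕ),
    Nat.card U = p ^ M ∧ M ≤ L ∧ ∀ (P : Type) [Group P] (n : ℕ), Nat.card P = p ^ n →
      (∃ φ : P →* Γ, Function.Injective φ) → ∃ φ : P →* U, Function.Injective φ := by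
  have hfp : Fact p.Prime := ⟨hp⟩
  obtain ⟨S⟩ : Nonempty (Sylow p Γ) := inferInstance
  refine ⟨S, inferInstance, (Nat.card Γ).factorization p, S.card_eq_multiplicity, ?_, ?_⟩
  · have h1 : Nat.card S ≤ Nat.card Γ :=
      Nat.card_le_card_of_injective _ Subtype.val_injective
    rw [S.card_eq_multiplicity] at h1
    exact (Nat.pow_le_pow_iff_right hp.one_lt).mp (h1.trans hΓ)
  · rintro P _ n hP ⟨φ, hφ⟩
    have hfin : Finite P := Nat.finite_of_card_ne_zero (by rw [hP]; exact pow_ne_zero _ hp.ne_zero)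
    have hPp : IsPGroup p P := IsPGroup.of_card hP
    have hr : IsPGroup p φ.range := hPp.of_surjective φ.rangeRestrict φ.rangeRestrict_surjective
    obtain ⟨Q, hQ⟩ := hr.exists_le_sylow
    obtain ⟨g, hg⟩ := MulAction.exists_smul_eq Γ Q S
    have hmem : ∀ x : P, (MulAut.conj g) (φ x) ∈ (S : Subgroup Γ) := by
      intro x
      have h1 : φ x ∈ (Q : Subgroup _) := hQ ⟨x, rfl⟩
      rw [← hg]
      exact Subgroup.smul_mem_pointwise_smul (φ x) (MulAut.conj g) (Q : Subgroup _) h1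
    refine ⟨((MulAut.conj g).toMonoidHom.comp φ).codRestrict (S : Subgroup _) hmem, ?_⟩
    intro x y hxy
    have h1 := congrArg Subtype.val hxy
    exact hφ ((MulAut.conj g).injective h1)

/-- The universal group: all `P` of order `p ^ n` acting faithfully in size `N`. -/
theorem universal_of_fai {p : ℕ} (hp : p.Prime) (N : ℕ) : ∃ (U : Type) (_ : Group U) (M : ℕ),
    Nat.card U = p ^ M ∧ M ≤ (N + 1) ^ 5 ∧ ∀ (P : Type) [Group P] (n : ℕ), Nat.card P = p ^ n →
      Fai p N P → ∃ φ : P →* U, Function.Injective φ := by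
  have hfin := finite_WW hp N
  obtain ⟨U, i1, M, hU, hM, h⟩ := sylow_universal hp (AddPerm (WW p N)) (card_AddPerm_le hp N)
  refine ⟨U, i1, M, hU, hM.trans ?_, fun P _ n hP hF => h P n hP (hF.embed hp)⟩
  calc N * (N + 1) * N * (N * (N + 1)) ≤
      (N + 1) * (N + 1) * (N + 1) * ((N + 1) * (N + 1)) := by gcongr <;> omega
    _ = (N + 1) ^ 5 := by ring

end Pool.Agent.Helper32.RK
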