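import Pool.Agent.Helper32.RK.End3

set_option autoImplicit false

namespace Pool.Agent.Helper32.RK

open Filter Topology

/-- `X(n) = n e^(δ n)` with `δ` small: `(⌊X⌋ + 1)^5 ≤ c^n` for large `n`. -/
theorem numeric (c : ℝ) (hc : 1 < c) : ∃ δ : ℝ, 0 < δ ∧ ∃ n₂ : ℕ, ∀ n : ℕ, n₂ ≤ n →
    (((⌊(n : ℝ) * Real.exp (δ * n)⌋₊ + 1) ^ 5 : ℕ) : ℝ) ≤ c ^ n := by
  have hlog : 0 < Real.log c := Real.log_pos hc
  refine ⟨Real.log c / 10, by positivity, ?_⟩
  have h1 : |Real.exp (-(Real.log c / 2))| < 1 := by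
    rw [abs_of_pos (Real.exp_pos _), Real.exp_lt_one_iff]
    linarith
  have h2 := tendsto_pow_const_mul_const_pow_of_abs_lt_one 5 h1
  have h3 := h2.eventually (gt_mem_nhds (show (0 : ℝ) < 1 / 32 by norm_num))
  obtain ⟨n₂, hn₂⟩ := eventually_atTop.mp h3
  refine ⟨max n₂ 1, fun n hn => ?_⟩
  have hn1 : 1 ≤ n := (le_max_right _ _).trans hn
  have h4 := hn₂ n ((le_max_left _ _).trans hn)
  set E := Real.exp (Real.log c / 10 * n) with hE
  have hE1 : 1 ≤ E := Real.one_le_exp (by positivity)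
  have hX : (1 : ℝ) ≤ n * E := by
    have : (1 : ℝ) ≤ n := by exact_mod_cast hn1
    nlinarith
  have h5 : ((⌊(n : ℝ) * E⌋₊ : ℕ) : ℝ) ≤ n * E := Nat.floor_le (by positivity)
  have h6 : (((⌊(n : ℝ) * E⌋₊ + 1) ^ 5 : ℕ) : ℝ) ≤ (2 * (n * E)) ^ 5 := by
    push_cast
    apply pow_le_pow_left₀ (by positivity)
    linarith
  refine h6.trans ?_
  have h7 : (2 * (n * E)) ^ 5 = 32 * ((n : ℝ) ^ 5) * Real.exp (Real.log c / 2 * n) := by
    have : E ^ 5 = Real.exp (Real.log c / 2 * n) := by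
      rw [hE, ← Real.exp_nat_mul]; congr 1; push_cast; ring
    rw [← this]; ring
  have h8 : c ^ n = Real.exp (Real.log c / 2 * n) * Real.exp (Real.log c / 2 * n) := by
    rw [← Real.exp_add, ← add_mul, add_halves, mul_comm, Real.exp_nat_mul, Real.exp_log (by linarith)]
  have h9 : Real.exp (-(Real.log c / 2)) ^ n * Real.exp (Real.log c / 2 * n) = 1 := by
    rw [← Real.exp_nat_mul, ← Real.exp_add]
    have : (n : ℝ) * -(Real.log c / 2) + Real.log c / 2 * n = 0 := by ring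
    rw [this, Real.exp_zero]
  rw [h7, h8]
  apply mul_le_mul_of_nonneg_right _ (Real.exp_pos _).le
  have h10 := Real.exp_pos (Real.log c / 2 * n)
  have h11 : (n : ℝ) ^ 5 = ((n : ℝ) ^ 5 * Real.exp (-(Real.log c / 2)) ^ n) *
      Real.exp (Real.log c / 2 * n) := by
    rw [mul_assoc, h9, mul_one]
  rw [h11]
  nlinarith [h4]

/-- the regular module -/
theorem fai_regular {p : ℕ} (hp : p.Prime) {G : Type} [Group G] {n : ℕ} (hG : Nat.card G = p ^ n) :
    Fai p (p ^ n) G := by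
  classical
  have hfp : Fact p.Prime := ⟨hp⟩
  have hfin : Finite G := Nat.finite_of_card_ne_zero (by rw [hG]; exact pow_ne_zero _ hp.ne_zero)
  refine ⟨RFun G (ZMod p), inferInstance, inferInstance, p ^ n, le_rfl, ?_, fun g hg => ?_⟩
  · change Nat.card (G → ZMod p) = _
    rw [← hG, Nat.card_fun, Nat.card_zmod]
  · have h1 : (Pi.single g (1 : ZMod p) : G → ZMod p) (1 * g) = (Pi.single g (1 : ZMod p) : G → ZMod p) 1 :=
      congrFun (hg (Pi.single g (1 : ZMod p) : G → ZMod p)) 1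
    by_contra hne
    rw [one_mul, Pi.single_eq_same, Pi.single_eq_of_ne (Ne.symm hne)] at h1
    exact one_ne_zero h1

/-- The function `f` exists: for every `n` some group of `p`-power order contains all groups of
order `p ^ n`. -/
theorem exists_universal {p : ℕ} (hp : p.Prime) (n : ℕ) :
    ∃ m : ℕ, ∃ (U : Type) (_ : Group U), Nat.card U = p ^ m ∧
      ∀ (P : Type) [Group P], Nat.card P = p ^ n → ∃ φ : P →* U, Function.Injective φ := by
  obtain ⟨U, i1, M, hU, -, hemb⟩ := universal_of_fai hp (p ^ n)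
  exact ⟨M, U, i1, hU, fun P _ hP => hemb P n hP (fai_regular hp hP)⟩

/-- The detection hypothesis: every central element of order `p` of every group of order `p ^ n` acts
nontrivially on a module of order `p ^ M`, `M ≤ e^(δ n)`, of a subgroup of index `p ^ s`, `s ≤ δ n`. -/
def DetHyp (p : ℕ) : Prop :=
  ∀ δ : ℝ, 0 < δ → ∃ n₁ : ℕ, ∀ n, n₁ ≤ n → ∀ (G : Type) [Group G], Nat.card G = p ^ n →
    ∀ z ∈ Subgroup.center G, orderOf z = p →
      ∃ (B : Subgroup G) (hz : z ∈ B) (s M : ℕ), B.index = p ^ s ∧ (s : ℝ) ≤ δ * n ∧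
        (M : ℝ) ≤ Real.exp (δ * n) ∧ Det p M B ⟨z, hz⟩

theorem fai_of_detHyp {p : ℕ} (hp : p.Prime) (h : DetHyp p) (δ : ℝ) (hδ : 0 < δ) :
    ∃ n₁ : ℕ, ∀ n, n₁ ≤ n → ∀ (G : Type) [Group G], Nat.card G = p ^ n →
      Fai p ⌊(n : ℝ) * Real.exp (δ * n)⌋₊ G := by
  have hlp : 0 ≤ Real.log p := Real.log_natCast_nonneg p
  have hp1 : (1 : ℝ) < p := by exact_mod_cast hp.one_lt
  obtain ⟨n₁, hn₁⟩ := h (δ / (Real.log p + 1)) (by positivity)
  refine ⟨n₁, fun n hn G _ hG => ?_⟩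
  have hfin : Finite G := Nat.finite_of_card_ne_zero (by rw [hG]; exact pow_ne_zero _ hp.ne_zero)
  set δ' := δ / (Real.log p + 1) with hδ'
  have hdet : ∀ z : G, z ∈ Subgroup.center G → orderOf z = p →
      Det p ⌊Real.exp (δ * n)⌋₊ G z := by
    intro z hz hzo
    obtain ⟨B, hzB, s, M, hB, hs, hM, hd⟩ := hn₁ n hn G hG z hz hzo
    refine (hd.induced hp B hzB).mono ?_
    apply Nat.le_floor
    rw [hB]
    push_cast
    have h1 : (p : ℝ) ^ s ≤ Real.exp (δ' * Real.log p * n) := by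
      rw [← Real.rpow_natCast, Real.rpow_def_of_pos (by linarith)]
      apply Real.exp_le_exp.mpr
      nlinarith
    calc (p : ℝ) ^ s * M ≤ Real.exp (δ' * Real.log p * n) * Real.exp (δ' * n) := by gcongr
      _ = Real.exp (δ * n) := by
        rw [← Real.exp_add]
        congr 1
        have h2 : δ' * (Real.log p + 1) = δ := by
          rw [hδ']; field_simp
        rw [← h2]; ring
  refine (fai_of_det hp hG hdet).mono ?_
  apply Nat.le_floor
  push_cast
  gcongr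
  exact Nat.floor_le (Real.exp_pos _).le

/-- The upper bound for large `n`. -/
theorem upper {p : ℕ} (hp : p.Prime) (h : DetHyp p) (c : ℝ) (hc : 1 < c) : ∃ n₀ : ℕ, ∀ n, n₀ ≤ n →
    ∃ M : ℕ, (∃ (U : Type) (_ : Group U), Nat.card U = p ^ M ∧
      ∀ (P : Type) [Group P], Nat.card P = p ^ n → ∃ φ : P →* U, Function.Injective φ) ∧
      (M : ℝ) ≤ c ^ n := by
  obtain ⟨δ, hδ, n₂, hn₂⟩ := numeric c hc
  obtain ⟨n₁, hn₁⟩ := fai_of_detHyp hp h δ hδ
  refine ⟨max n₁ n₂, fun n hn => ?_⟩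
  obtain ⟨U, i1, M, hU, hM, hemb⟩ := universal_of_fai hp ⌊(n : ℝ) * Real.exp (δ * n)⌋₊
  refine ⟨M, ⟨U, i1, hU, fun P _ hP => hemb P n hP (hn₁ n ((le_max_left _ _).trans hn) P hP)⟩, ?_⟩
  refine le_trans ?_ (hn₂ n ((le_max_right _ _).trans hn))
  exact_mod_cast hM

/-- Detection implies `f(n) / c^n → 0` for every `c > 1`. -/
theorem main_of_detHyp {p : ℕ} (hp : p.Prime) (h : DetHyp p) (f : ℕ → ℕ)
    (hf : ∀ n : ℕ, IsLeast
        {m : ℕ | ∃ (U : Type) (_ : Group U), Nat.card U = p ^ m ∧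
          ∀ (P : Type) [Group P], Nat.card P = p ^ n →
            ∃ φ : P →* U, Function.Injective φ} (f n)) (c : ℝ) (hc : 1 < c) :
    Tendsto (fun n : ℕ => (f n : ℝ) / c ^ n) atTop (𝓝 0) := by
  set c' := (1 + c) / 2 with hc'
  have h1 : 1 < c' := by rw [hc']; linarith
  have h2 : c' < c := by rw [hc']; linarith
  obtain ⟨n₀, hn₀⟩ := upper hp h c' h1
  have h3 : Tendsto (fun n : ℕ => (c' / c) ^ n) atTop (𝓝 0) := by
    apply tendsto_pow_atTop_nhds_zero_of_lt_one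
    · positivity
    · rw [div_lt_one (by linarith)]; exact h2
  refine squeeze_zero' (Eventually.of_forall fun n => by positivity) ?_ h3
  filter_upwards [eventually_ge_atTop n₀] with n hn
  obtain ⟨M, hM, hMc⟩ := hn₀ n hn
  rw [div_pow]
  have hcpos : (0 : ℝ) < c ^ n := by positivity
  gcongr
  exact le_trans (by exact_mod_cast (hf n).2 hM) hMc

end Pool.Agent.Helper32.RK
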