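import Pool.Agent.Helper32.RK.End1

set_option autoImplicit false

namespace Pool.Agent.Helper32.RK

/-- As `det_of_orbit`, but only the generators `T` have to be killed by `p ^ L`. -/
theorem det_of_orbit' {p : ℕ} (hp : p.Prime) {B : Type} [Group B] {Ω : Type} [AddCommGroup Ω]
    [DistribMulAction B Ω] {L N : ℕ} {z : B} (ω : Ω) (hω0 : ∀ b : B, p ^ L • (b • ω) = 0)
    (T : Finset Ω) (hT : T.card ≤ N)
    (hω : ∀ b : B, b • ω ∈ AddSubgroup.closure (T : Set Ω) ⊔ (AddSubgroup.closure
      (Set.range fun b : B => b • ω)).map (nsmulAddMonoidHom p))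
    (hTS : ∀ t ∈ T, t ∈ AddSubgroup.closure (Set.range fun b : B => b • ω))
    (hz : z • ω ≠ ω) : Det p (N * L) B z := by
  classical
  set S : AddSubgroup Ω := AddSubgroup.closure (Set.range fun b : B => b • ω) with hS
  have hS0 : ∀ x ∈ S, p ^ L • x = 0 := by
    intro x hx
    rw [hS] at hx
    induction hx using AddSubgroup.closure_induction with
    | mem x hx => obtain ⟨b, rfl⟩ := hx; exact hω0 b
    | zero => rw [smul_zero]
    | add x y _ _ h1 h2 => rw [smul_add, h1, h2, add_zero]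
    | neg x _ h1 => rw [smul_neg, h1, neg_zero]
  have hstab : ∀ (b : B) (x : Ω), x ∈ S → b • x ∈ S := by
    intro b x hx
    rw [hS] at hx
    induction hx using AddSubgroup.closure_induction with
    | mem x hx =>
      obtain ⟨c, rfl⟩ := hx
      exact AddSubgroup.subset_closure ⟨b * c, by simp [mul_smul]⟩
    | zero => rw [smul_zero]; exact S.zero_mem
    | add x y _ _ h1 h2 => rw [smul_add]; exact S.add_mem h1 h2
    | neg x _ h1 => rw [smul_neg]; exact S.neg_mem h1
  let act : DistribMulAction B S :=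
    { smul := fun b x => ⟨b • x.1, hstab b x.1 x.2⟩
      one_smul := fun x => Subtype.ext (one_smul B x.1)
      mul_smul := fun b c x => Subtype.ext (mul_smul b c x.1)
      smul_zero := fun b => Subtype.ext (smul_zero b)
      smul_add := fun b x y => Subtype.ext (smul_add b x.1 y.1) }
  -- Nakayama
  have hSle : ∀ x ∈ S, ∃ y ∈ AddSubgroup.closure (T : Set Ω), ∃ w ∈ S, x = y + p • w := by
    intro x hx
    have hx' := hx
    rw [hS] at hx
    have h1 : x ∈ AddSubgroup.closure (T : Set Ω) ⊔ S.map (nsmulAddMonoidHom p) := by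
      refine (AddSubgroup.closure_le _).mpr ?_ hx
      rintro _ ⟨b, rfl⟩
      exact hω b
    obtain ⟨y, hy, w', hw', rfl⟩ := AddSubgroup.mem_sup.mp h1
    obtain ⟨w, hw, rfl⟩ := hw'
    exact ⟨y, hy, w, hw, rfl⟩
  have hnak : ∀ k : ℕ, ∀ x ∈ S, ∃ y ∈ AddSubgroup.closure (T : Set Ω), ∃ w ∈ S,
      x = y + p ^ k • w := by
    intro k
    induction k with
    | zero => intro x hx; exact ⟨0, AddSubgroup.zero_mem _, x, hx, by simp⟩
    | succ k ih =>
      intro x hx
      obtain ⟨y, hy, w, hw, rfl⟩ := ih x hx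
      obtain ⟨y', hy', w', hw', rfl⟩ := hSle w hw
      refine ⟨y + p ^ k • y', AddSubgroup.add_mem _ hy (AddSubgroup.nsmul_mem _ hy' _), w', hw', ?_⟩
      rw [smul_add, smul_smul, ← pow_succ, add_assoc]
  let T' : Finset S := T.attach.image fun t => ⟨t.1, hTS t.1 t.2⟩
  have hT'c : T'.card ≤ N := (Finset.card_image_le.trans (by rw [Finset.card_attach])).trans hT
  have hT'cl : ∀ y ∈ AddSubgroup.closure (T : Set Ω), ∃ hy : y ∈ S,
      (⟨y, hy⟩ : S) ∈ AddSubgroup.closure (T' : Set S) := by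
    intro y hy
    induction hy using AddSubgroup.closure_induction with
    | mem x hx =>
      refine ⟨hTS x hx, AddSubgroup.subset_closure ?_⟩
      simp only [T', Finset.coe_image, Set.mem_image, Finset.mem_coe, Finset.mem_attach, true_and]
      exact ⟨⟨x, hx⟩, rfl⟩
    | zero => exact ⟨S.zero_mem, AddSubgroup.zero_mem _⟩
    | add x y _ _ h1 h2 =>
      obtain ⟨a, ha⟩ := h1
      obtain ⟨b, hb⟩ := h2
      exact ⟨S.add_mem a b, AddSubgroup.add_mem _ ha hb⟩
    | neg x _ h1 =>
      obtain ⟨a, ha⟩ := h1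
      exact ⟨S.neg_mem a, AddSubgroup.neg_mem _ ha⟩
  refine det_of_orbit (Ω := S) hp (⟨ω, AddSubgroup.subset_closure ⟨1, by simp⟩⟩ : S)
    (fun x => Subtype.ext (hS0 x.1 x.2)) T' hT'c (fun b => ?_) (fun h => hz (congrArg Subtype.val h))
  obtain ⟨y, hy, w, hw, h1⟩ := hnak L (b • ω) (AddSubgroup.subset_closure ⟨b, rfl⟩)
  rw [hS0 w hw, add_zero] at h1
  obtain ⟨hyS, hy'⟩ := hT'cl y hy
  have h2 : b • (⟨ω, AddSubgroup.subset_closure ⟨1, by simp⟩⟩ : S) = ⟨y, hyS⟩ := Subtype.ext h1
  rw [h2]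
  exact hy'

/-- Detection by a function with values in any group, killed by `p ^ L`; the right translates lie in
the group generated by `N` elements of their span modulo `p` times their span. -/
theorem det_of_fun' {p : ℕ} (hp : p.Prime) {B : Type} [Group B] {A : Type} [AddCommGroup A]
    {L N : ℕ} {z : B} (f : B → A) (hL : ∀ b : B, p ^ L • f b = 0)
    (T : Finset (B → A)) (hT : T.card ≤ N)
    (hTS : ∀ t ∈ T, t ∈ AddSubgroup.closure (Set.range fun (b : B) (x : B) => f (x * b)))
    (hf : ∀ b : B, (fun x => f (x * b)) ∈ AddSubgroup.closure (T : Set (B → A)) ⊔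
      (AddSubgroup.closure (Set.range fun (b : B) (x : B) => f (x * b))).map (nsmulAddMonoidHom p))
    (x₀ : B) (hz : f (x₀ * z) ≠ f x₀) : Det p (N * L) B z := by
  refine det_of_orbit' (Ω := RFun B A) hp f (fun b => ?_) T hT hf hTS (fun h => hz (congrFun h x₀))
  funext x
  exact hL (x * b)

end Pool.Agent.Helper32.RK
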