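import Mathlib

/-! Project RK (MP_aa96c4_al): the numerics of the tower of scales. -/

set_option autoImplicit false

namespace Pool.Agent.Helper32.RK

open Finset Filter Topology

/-- `C(n + D, n) ≤ exp (3 √(n D))` for `D ≤ n`. -/
theorem choose_le_exp {n D : ℕ} (hD : D ≤ n) :
    (((n + D).choose n : ℕ) : ℝ) ≤ Real.exp (3 * Real.sqrt (n * D)) := by
  rcases Nat.eq_zero_or_pos D with rfl | hD0
  · simp
  have hn0 : 0 < n := by omega
  have hnR : (0 : ℝ) < n := by exact_mod_cast hn0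
  have hDR : (0 : ℝ) < D := by exact_mod_cast hD0
  have hDn : (D : ℝ) ≤ n := by exact_mod_cast hD
  set t := Real.sqrt (n * D) with ht
  have ht0 : 0 < t := Real.sqrt_pos.mpr (by positivity)
  have htt : t * t = n * D := Real.mul_self_sqrt (by positivity)
  set x : ℝ := t / n with hx
  have hx0 : 0 < x := by positivity
  have hxn : x * n = t := by rw [hx]; field_simp
  have hDx : D / x = t := by
    rw [hx, div_div_eq_mul_div, div_eq_iff ht0.ne', htt]; ring
  have h1 : (((n + D).choose n : ℕ) : ℝ) * x ^ D ≤ (1 + x) ^ (n + D) := by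
    rw [add_pow]
    have h2 : ∀ i ∈ range (n + D + 1), (0 : ℝ) ≤ 1 ^ i * x ^ (n + D - i) * ((n + D).choose i : ℕ) :=
      fun i _ => by positivity
    have h3 := Finset.single_le_sum h2 (mem_range.mpr (show n < n + D + 1 by omega))
    have h4 : n + D - n = D := by omega
    rw [h4, one_pow, one_mul] at h3
    calc _ = x ^ D * (((n + D).choose n : ℕ) : ℝ) := mul_comm _ _
      _ ≤ _ := h3
  have h5 : (1 + x) ^ (n + D) ≤ Real.exp (2 * t) := by
    have h6 : 1 + x ≤ Real.exp x := by linarith [Real.add_one_le_exp x]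
    calc (1 + x) ^ (n + D) ≤ (Real.exp x) ^ (n + D) := pow_le_pow_left₀ (by positivity) h6 _
      _ = Real.exp (((n + D : ℕ) : ℝ) * x) := (Real.exp_nat_mul _ _).symm
      _ ≤ Real.exp (2 * t) := by
        apply Real.exp_le_exp.mpr
        push_cast
        have : (D : ℝ) * x ≤ n * x := by gcongr
        nlinarith
  have h7 : Real.exp (-t) ≤ x ^ D := by
    have h8 : -(1 / x) ≤ Real.log x := by
      have h9 := Real.log_le_sub_one_of_pos (show 0 < 1 / x by positivity)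
      rw [one_div, Real.log_inv] at h9
      rw [one_div]
      linarith
    rw [← Real.exp_log hx0, ← Real.exp_nat_mul]
    apply Real.exp_le_exp.mpr
    have h10 : (D : ℝ) * -(1 / x) ≤ D * Real.log x := by gcongr
    calc -t = (D : ℝ) * -(1 / x) := by rw [← hDx]; ring
      _ ≤ _ := h10
  have h11 : (((n + D).choose n : ℕ) : ℝ) * Real.exp (-t) ≤ Real.exp (2 * t) :=
    le_trans (by gcongr) (h1.trans h5)
  calc (((n + D).choose n : ℕ) : ℝ)
      = (((n + D).choose n : ℕ) : ℝ) * Real.exp (-t) * Real.exp t := by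
        rw [mul_assoc, ← Real.exp_add]; simp
    _ ≤ Real.exp (2 * t) * Real.exp t := by gcongr
    _ = Real.exp (3 * t) := by rw [← Real.exp_add]; congr 1; ring

theorem ell_pow : ∃ n₀ : ℕ, ∀ n : ℕ, n₀ ≤ n → (Nat.log 2 n + 1) ^ 16 ≤ n := by
  have h1 : |(1 / 2 : ℝ)| < 1 := by rw [abs_of_pos] <;> norm_num
  have h2 := tendsto_pow_const_mul_const_pow_of_abs_lt_one 16 h1
  have h3 := h2.eventually (gt_mem_nhds (show (0 : ℝ) < 1 / 2 by norm_num))
  obtain ⟨x₀, hx₀⟩ := eventually_atTop.mp h3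
  refine ⟨2 ^ x₀, fun n hn => ?_⟩
  have hn0 : n ≠ 0 := by
    have := Nat.two_pow_pos x₀
    omega
  have h4 : x₀ ≤ Nat.log 2 n := Nat.le_log_of_pow_le (by norm_num) hn
  have h5 := hx₀ (Nat.log 2 n + 1) (by omega)
  have h6 : ((Nat.log 2 n + 1 : ℕ) : ℝ) ^ 16 ≤ 2 ^ Nat.log 2 n := by
    have h7 : (0 : ℝ) < 2 ^ (Nat.log 2 n + 1) := by positivity
    have h8 : ((Nat.log 2 n + 1 : ℕ) : ℝ) ^ 16 * (1 / 2) ^ (Nat.log 2 n + 1) *
        2 ^ (Nat.log 2 n + 1) < 1 / 2 * 2 ^ (Nat.log 2 n + 1) := by gcongr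
    have h10 : ((1 / 2 : ℝ)) ^ (Nat.log 2 n + 1) * 2 ^ (Nat.log 2 n + 1) = 1 := by
      rw [← mul_pow]; norm_num
    rw [mul_assoc, h10, mul_one, pow_succ (2 : ℝ)] at h8
    linarith
  have h9 : (Nat.log 2 n + 1) ^ 16 ≤ 2 ^ Nat.log 2 n := by exact_mod_cast h6
  exact h9.trans (Nat.pow_log_le_self 2 hn0)

theorem two_mul_le_pow_half {x : ℕ} (hx : 16 ≤ x) : 2 * x ≤ 2 ^ (x / 2) := by
  have key : ∀ y : ℕ, 8 ≤ y → 4 * y + 2 ≤ 2 ^ y := by
    intro y hy
    induction y, hy using Nat.le_induction with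
    | base => norm_num
    | succ y hy ih => rw [pow_succ]; omega
  have := key (x / 2) (by omega)
  omega

theorem four_sq_le_pow_half {x : ℕ} (hx : 64 ≤ x) : 4 * x ^ 2 ≤ 2 ^ (x / 2) := by
  have key : ∀ y : ℕ, 32 ≤ y → 4 * (2 * y + 1) ^ 2 ≤ 2 ^ y := by
    intro y hy
    induction y, hy using Nat.le_induction with
    | base => norm_num
    | succ y hy ih =>
      have h3 : 2 ^ (y + 1) = 2 ^ y * 2 := pow_succ 2 y
      nlinarith
  have h1 := key (x / 2) (by omega)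
  have h2 : x ≤ 2 * (x / 2) + 1 := by omega
  calc 4 * x ^ 2 ≤ 4 * (2 * (x / 2) + 1) ^ 2 := by gcongr
    _ ≤ _ := h1

/-- the hypothesis on the letter numbers `r` -/
def Good (n : ℕ) (r : ℕ → ℕ) : Prop :=
  ∀ J M : ℕ, 0 < J → 0 < M → ∃ j, J ≤ j ∧ j < 2 ^ M * J ∧ M * (j * r j) ≤ 54 * n

theorem ext_step {n : ℕ} {r : ℕ → ℕ} (hr : Good n r) {x M' : ℕ} (hx : 16 ≤ x) (hM' : 0 < M')
    (h : 2 * M' ≤ x) : ∃ y, 2 * x ≤ y ∧ y < 2 ^ x ∧ M' * (y * r y) ≤ 54 * n := by
  obtain ⟨y, h1, h2, h3⟩ := hr (2 ^ (x - M')) M' (by positivity) hM'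
  refine ⟨y, ?_, ?_, h3⟩
  · calc 2 * x ≤ 2 ^ (x / 2) := two_mul_le_pow_half hx
      _ ≤ 2 ^ (x - M') := Nat.pow_le_pow_right (by norm_num) (by omega)
      _ ≤ y := h1
  · rw [← pow_add] at h2
    have : M' + (x - M') = x := by omega
    rwa [this] at h2

/-- the finite chain of scales below `log n` -/
def Chain (n M J₀ : ℕ) (r : ℕ → ℕ) (m : ℕ) (j : ℕ → ℕ) : Prop :=
  j 0 < 2 ^ M * J₀ ∧ (∀ i ≤ m, M * 2 ^ i * (j i * r (j i)) ≤ 54 * n) ∧ (∀ i ≤ m, 2 ^ i * J₀ ≤ j i) ∧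
    (∀ i < m, 2 * j i ≤ j (i + 1) ∧ j (i + 1) ≤ 2 ^ j i ∧ (2 ^ j i) ^ 2 ≤ n)

theorem exists_chain {n M J₀ : ℕ} {r : ℕ → ℕ} (hr : Good n r) (hM : 1 ≤ M) (hJ : 64 * M ≤ J₀) :
    ∃ (m : ℕ) (j : ℕ → ℕ), Chain n M J₀ r m j ∧ n < (2 ^ j m) ^ 2 := by
  by_contra hcon
  push Not at hcon
  have key : ∀ m : ℕ, ∃ j : ℕ → ℕ, Chain n M J₀ r m j := by
    intro m
    induction m with
    | zero =>
      obtain ⟨j, h1, h2, h3⟩ := hr J₀ M (by omega) (by omega)
      refine ⟨fun _ => j, h2, ?_, ?_, ?_⟩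
      · intro i hi
        obtain rfl : i = 0 := by omega
        simpa using h3
      · intro i hi
        obtain rfl : i = 0 := by omega
        simpa using h1
      · intro i hi; omega
    | succ m ih =>
      obtain ⟨j, hj⟩ := ih
      have hc := hcon m j hj
      obtain ⟨h1, h2, h3, h4⟩ := hj
      have h5 := h3 m le_rfl
      have h6 : 1 ≤ 2 ^ m := Nat.one_le_two_pow
      have h7 : 2 * (M * 2 ^ (m + 1)) ≤ j m := by
        rw [pow_succ]
        nlinarith
      have h8 : 16 ≤ j m := by nlinarith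
      obtain ⟨y, hy1, hy2, hy3⟩ := ext_step hr h8 (by positivity : 0 < M * 2 ^ (m + 1)) h7
      refine ⟨fun i => if i ≤ m then j i else y, by simpa using h1, ?_, ?_, ?_⟩
      · intro i hi
        by_cases him : i ≤ m
        · simp only [him, if_true]
          exact h2 i him
        · obtain rfl : i = m + 1 := by omega
          simp only [him, if_false]
          exact hy3
      · intro i hi
        by_cases him : i ≤ m
        · simp only [him, if_true]
          exact h3 i him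
        · obtain rfl : i = m + 1 := by omega
          simp only [him, if_false]
          rw [pow_succ]
          nlinarith
      · intro i hi
        by_cases him : i < m
        · have h9 : i ≤ m := by omega
          have h10 : i + 1 ≤ m := by omega
          simp only [h9, h10, if_true]
          exact h4 i him
        · obtain rfl : i = m := by omega
          have h10 : ¬ i + 1 ≤ i := by omega
          simp only [le_refl, if_true, h10, if_false]
          exact ⟨hy1, hy2.le, hc⟩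
  obtain ⟨j, hj⟩ := key n
  have hc := hcon n j hj
  have h3 := hj.2.2.1 n le_rfl
  have h5 : n < 2 ^ n := Nat.lt_two_pow_self
  have h6 : n ≤ j n := by nlinarith
  have h7 : 2 ^ n ≤ 2 ^ j n := Nat.pow_le_pow_right (by norm_num) h6
  nlinarith

/-- the tower of scales from a bounded one up to `n` -/
theorem tower (M J₀ : ℕ) (hM : 1 ≤ M) (hJ : 64 * M ≤ J₀) : ∃ n₀ : ℕ, ∀ n : ℕ, n₀ ≤ n →
    ∀ r : ℕ → ℕ, Good n r → ∃ (s : ℕ) (j : ℕ → ℕ), 2 ≤ s ∧ s ≤ Nat.log 2 n + 1 ∧
      j 0 < 2 ^ M * J₀ ∧ j s = n ∧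
      (∀ i < s, 2 * j i ≤ j (i + 1) ∧ j (i + 1) ≤ 2 ^ j i ∧ M * 2 ^ i * (j i * r (j i)) ≤ 54 * n ∧
        2 ^ i * J₀ ≤ j i) ∧
      (∑ i ∈ range s, j (i + 1) / j i) * (Nat.log 2 n + 1) ^ 2 ≤ 2 * n := by
  obtain ⟨n₀, hn₀⟩ := ell_pow
  refine ⟨max n₀ (max 6561 ((2 ^ (2 ^ M * J₀)) ^ 2)), fun n hn r hr => ?_⟩
  have hl16 := hn₀ n ((le_max_left _ _).trans hn)
  have hn1 : 6561 ≤ n := ((le_max_left _ _).trans (le_max_right _ _)).trans hn
  have hn2 : (2 ^ (2 ^ M * J₀)) ^ 2 ≤ n := ((le_max_right _ _).trans (le_max_right _ _)).trans hn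
  set l := Nat.log 2 n + 1 with hl
  have hnl : n < 2 ^ l := Nat.lt_pow_succ_log_self (by norm_num) n
  have hln : 2 ^ (l - 1) ≤ n := by
    rw [hl, Nat.add_sub_cancel]; exact Nat.pow_log_le_self 2 (by omega)
  have hl13 : 13 ≤ l := by
    by_contra hcon
    have h1 : 2 ^ l ≤ 2 ^ 12 := Nat.pow_le_pow_right (by norm_num) (by omega)
    norm_num at h1
    omega
  obtain ⟨m, j, ⟨h1, h2, h3, h4⟩, h5⟩ := exists_chain hr hM hJ
  have hm : 1 ≤ m := by
    by_contra hcon
    obtain rfl : m = 0 := by omega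
    have h6 : 2 ^ j 0 ≤ 2 ^ (2 ^ M * J₀) := Nat.pow_le_pow_right (by norm_num) h1.le
    have h7 : (2 ^ j 0) ^ 2 ≤ (2 ^ (2 ^ M * J₀)) ^ 2 := Nat.pow_le_pow_left h6 2
    omega
  obtain ⟨m', rfl⟩ : ∃ m', m = m' + 1 := ⟨m - 1, by omega⟩
  set x := j (m' + 1) with hx
  set w := j m' with hw
  obtain ⟨h6, h7, h8⟩ := h4 m' (by omega)
  rw [← hx, ← hw] at h6 h7
  rw [← hw] at h8
  have hx3 : 2 ^ (m' + 1) * J₀ ≤ x := h3 (m' + 1) le_rfl
  have hw3 : 2 ^ m' * J₀ ≤ w := h3 m' (by omega)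
  have hpm : 1 ≤ 2 ^ m' := Nat.one_le_two_pow
  have hJ64 : 64 ≤ J₀ := by omega
  have hw64 : 64 ≤ w := by nlinarith
  have hx64 : 64 ≤ x := by omega
  have hx2 : x ^ 2 ≤ n := (Nat.pow_le_pow_left h7 2).trans h8
  set M' := M * 2 ^ (m' + 2) with hM'
  have hM'0 : 0 < M' := by positivity
  have hM'e : M' = 4 * (M * 2 ^ m') := by rw [hM', pow_add]; ring
  have hM'w : 16 * M' ≤ w := by
    rw [hM'e]
    calc 16 * (4 * (M * 2 ^ m')) = 2 ^ m' * (64 * M) := by ring
      _ ≤ 2 ^ m' * J₀ := Nat.mul_le_mul_left _ hJ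
      _ ≤ w := hw3
  set a := 2 ^ M' with ha
  have ha32 : a ^ 32 ≤ n := by
    calc a ^ 32 = 2 ^ (2 * (16 * M')) := by rw [ha, ← pow_mul]; congr 1; ring
      _ ≤ 2 ^ (2 * w) := Nat.pow_le_pow_right (by norm_num) (by omega)
      _ = (2 ^ w) ^ 2 := by rw [← pow_mul, mul_comm]
      _ ≤ n := h8
  have ha1 : 1 ≤ a := Nat.one_le_two_pow
  obtain ⟨u, hu1, hu2, hu3⟩ := hr (max (2 * x) (l ^ 2)) M' (by positivity) hM'0
  have hu2x : 2 * x ≤ u := (le_max_left _ _).trans hu1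
  have hul : l ^ 2 ≤ u := (le_max_right _ _).trans hu1
  have hlx : l ≤ 2 * x := by
    have h9 : 2 ^ (l - 1) < 2 ^ (2 * x) := by
      calc 2 ^ (l - 1) ≤ n := hln
        _ < (2 ^ x) ^ 2 := h5
        _ = 2 ^ (2 * x) := by rw [← pow_mul, mul_comm]
    have h10 := (Nat.pow_lt_pow_iff_right (by norm_num : 1 < 2)).mp h9
    omega
  -- `u ≤ 2 ^ x`
  have hux : u ≤ 2 ^ x := by
    have h9 : max (2 * x) (l ^ 2) ≤ 2 ^ (x / 2) := by
      apply max_le (two_mul_le_pow_half (by omega))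
      calc l ^ 2 ≤ (2 * x) ^ 2 := Nat.pow_le_pow_left hlx 2
        _ = 4 * x ^ 2 := by ring
        _ ≤ 2 ^ (x / 2) := four_sq_le_pow_half hx64
    calc u ≤ a * max (2 * x) (l ^ 2) := hu2.le
      _ ≤ 2 ^ M' * 2 ^ (x / 2) := Nat.mul_le_mul_left _ h9
      _ = 2 ^ (M' + x / 2) := (pow_add _ _ _).symm
      _ ≤ 2 ^ x := Nat.pow_le_pow_right (by norm_num) (by omega)
  -- `u l ^ 4 ≤ n`
  have hxl : max (2 * x) (l ^ 2) ^ 2 ≤ 9 * n := by
    rcases le_total (2 * x) (l ^ 2) with h | h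
    · rw [max_eq_right h]
      calc (l ^ 2) ^ 2 = l ^ 4 := by ring
        _ ≤ l ^ 16 := Nat.pow_le_pow_right (by omega) (by norm_num)
        _ ≤ 9 * n := by omega
    · rw [max_eq_left h]
      calc (2 * x) ^ 2 = 4 * x ^ 2 := by ring
        _ ≤ 9 * n := by omega
  have hul4 : u * l ^ 4 ≤ n := by
    have h9 : (u * l ^ 4) ^ 8 ≤ n ^ 8 := by
      calc (u * l ^ 4) ^ 8 ≤ ((a * max (2 * x) (l ^ 2)) * l ^ 4) ^ 8 :=
            Nat.pow_le_pow_left (Nat.mul_le_mul_right _ hu2.le) 8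
        _ = a ^ 8 * (max (2 * x) (l ^ 2) ^ 2) ^ 4 * (l ^ 16) ^ 2 := by ring
        _ ≤ n * (9 * n) ^ 4 * n ^ 2 := by
            have h10 : a ^ 8 ≤ n := (Nat.pow_le_pow_right ha1 (by norm_num)).trans ha32
            gcongr
        _ = 6561 * n ^ 7 := by ring
        _ ≤ n * n ^ 7 := Nat.mul_le_mul_right _ hn1
        _ = n ^ 8 := by ring
    exact (Nat.pow_le_pow_iff_left (by norm_num)).mp h9
  have hm'l : m' + 3 ≤ l := by
    have h9 : 2 ^ (2 * w) < 2 ^ l := by
      calc 2 ^ (2 * w) = (2 ^ w) ^ 2 := by rw [← pow_mul, mul_comm]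
        _ ≤ n := h8
        _ < 2 ^ l := hnl
    have h10 := (Nat.pow_lt_pow_iff_right (by norm_num : 1 < 2)).mp h9
    have h11 : m' < 2 ^ m' := Nat.lt_two_pow_self
    nlinarith
  have hl4 : l ^ 4 ≤ n := (Nat.pow_le_pow_right (by omega) (by norm_num)).trans hl16
  have hl2 : 0 < l ^ 2 := by positivity
  -- the sequence
  let J : ℕ → ℕ := fun i => if i ≤ m' + 1 then j i else if i = m' + 2 then u else n
  have hJle : ∀ i, i ≤ m' + 1 → J i = j i := fun i hi => by simp only [J, hi, if_true]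
  have hJu : J (m' + 2) = u := by simp [J]
  have hJn : J (m' + 3) = n := by simp [J]
  have hstep : ∀ i < m' + 2, J (i + 1) * l ^ 4 ≤ n ∧ 64 ≤ J i := by
    intro i hi
    by_cases him : i < m' + 1
    · rw [hJle (i + 1) (by omega), hJle i (by omega)]
      obtain ⟨h9, h10, h11⟩ := h4 i him
      have h12 : (j (i + 1)) ^ 2 ≤ n := (Nat.pow_le_pow_left h10 2).trans h11
      have h13 := h3 i (by omega)
      have h14 : 1 ≤ 2 ^ i := Nat.one_le_two_pow
      refine ⟨?_, by nlinarith⟩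
      have h15 : (j (i + 1) * l ^ 4) ^ 2 ≤ n ^ 2 := by
        calc (j (i + 1) * l ^ 4) ^ 2 = (j (i + 1)) ^ 2 * l ^ 8 := by ring
          _ ≤ n * n := Nat.mul_le_mul h12
            ((Nat.pow_le_pow_right (by omega) (by norm_num)).trans hl16)
          _ = n ^ 2 := by ring
      exact (Nat.pow_le_pow_iff_left (by norm_num)).mp h15
    · obtain rfl : i = m' + 1 := by omega
      rw [hJle (m' + 1) le_rfl]
      exact ⟨by rw [hJu]; exact hul4, hx64⟩
  refine ⟨m' + 3, J, by omega, hm'l, ?_, hJn, ?_, ?_⟩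
  · rw [hJle 0 (by omega)]; exact h1
  · intro i hi
    by_cases him : i < m' + 1
    · rw [hJle (i + 1) (by omega), hJle i (by omega)]
      obtain ⟨h9, h10, h11⟩ := h4 i him
      exact ⟨h9, h10, h2 i (by omega), h3 i (by omega)⟩
    · by_cases him2 : i = m' + 1
      · subst him2
        rw [hJle (m' + 1) le_rfl]
        have h9 : J (m' + 1 + 1) = u := hJu
        rw [h9]
        exact ⟨hu2x, hux, h2 _ le_rfl, h3 _ le_rfl⟩
      · obtain rfl : i = m' + 2 := by omega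
        have h9 : J (m' + 2 + 1) = n := hJn
        rw [h9, hJu]
        refine ⟨?_, ?_, hu3, ?_⟩
        · have h10 : 2 ≤ l ^ 4 := by
            calc 2 ≤ l := by omega
              _ = l ^ 1 := (pow_one l).symm
              _ ≤ l ^ 4 := Nat.pow_le_pow_right (by omega) (by norm_num)
          calc 2 * u = u * 2 := mul_comm _ _
            _ ≤ u * l ^ 4 := Nat.mul_le_mul_left _ h10
            _ ≤ n := hul4
        · calc n ≤ 2 ^ l := hnl.le
            _ ≤ 2 ^ u := Nat.pow_le_pow_right (by norm_num) (by nlinarith)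
        · calc 2 ^ (m' + 2) * J₀ = 2 * (2 ^ (m' + 1) * J₀) := by ring
            _ ≤ 2 * x := Nat.mul_le_mul_left _ hx3
            _ ≤ u := hu2x
  · rw [Finset.sum_range_succ, add_mul, hJu, hJn]
    have h9 : (n / u) * l ^ 2 ≤ n := by
      calc (n / u) * l ^ 2 ≤ (n / u) * u := Nat.mul_le_mul_left _ hul
        _ ≤ n := Nat.div_mul_le_self n u
    have h10 : (∑ i ∈ range (m' + 2), J (i + 1) / J i) * l ^ 2 ≤ n := by
      have h11 : (∑ i ∈ range (m' + 2), J (i + 1) / J i) * l ^ 4 ≤ (m' + 2) * n := by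
        rw [Finset.sum_mul]
        calc ∑ i ∈ range (m' + 2), J (i + 1) / J i * l ^ 4 ≤ ∑ i ∈ range (m' + 2), n := by
              apply Finset.sum_le_sum
              intro i hi
              obtain ⟨h12, -⟩ := hstep i (mem_range.mp hi)
              calc J (i + 1) / J i * l ^ 4 ≤ J (i + 1) * l ^ 4 :=
                    Nat.mul_le_mul_right _ (Nat.div_le_self _ _)
                _ ≤ n := h12
          _ = (m' + 2) * n := by simp
      have h13 : (∑ i ∈ range (m' + 2), J (i + 1) / J i) * l ^ 2 * l ^ 2 ≤ n * l ^ 2 := by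
        calc (∑ i ∈ range (m' + 2), J (i + 1) / J i) * l ^ 2 * l ^ 2
            = (∑ i ∈ range (m' + 2), J (i + 1) / J i) * l ^ 4 := by ring
          _ ≤ (m' + 2) * n := h11
          _ ≤ l ^ 2 * n := Nat.mul_le_mul_right _ (by nlinarith)
          _ = n * l ^ 2 := mul_comm _ _
      exact Nat.le_of_mul_le_mul_right h13 hl2
    omega

theorem sum_half_le (s : ℕ) : ∑ i ∈ range s, ((2 : ℝ) ^ i)⁻¹ ≤ 2 := by
  have h := sum_geometric_two_le s
  refine le_trans (le_of_eq ?_) h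
  refine Finset.sum_congr rfl fun i _ => ?_
  rw [one_div, inv_pow]

/-- **Scales** (product version). -/
theorem scales (p : ℕ) (hp : 2 ≤ p) (Jmin : ℕ) (δ : ℝ) (hδ : 0 < δ) :
    ∃ η : ℝ, 0 < η ∧ η ≤ 1 ∧ ∃ n₁ : ℕ, ∀ n : ℕ, n₁ ≤ n → ∀ k : ℕ, 1 ≤ k → (k : ℝ) ≤ η * n →
    ∀ r : ℕ → ℕ, (∀ J M : ℕ, 0 < J → 0 < M → ∃ j, J ≤ j ∧ j < 2 ^ M * J ∧ M * (j * r j) ≤ 54 * n) →
    ∃ (s : ℕ) (j : ℕ → ℕ) (β : ℕ → ℝ) (m : ℕ → ℕ), 1 ≤ s ∧ 16 ≤ j 0 ∧ Jmin ≤ j 0 ∧ j s = n ∧
      (∀ i < s, 2 * j i ≤ j (i + 1)) ∧ (∀ i < s, 0 < β i ∧ 1 ≤ 2 ^ m i * β i) ∧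
      ∀ ρ : ℕ → ℝ, ρ 0 ≤ (((n + 1) * (n + p ^ (j 0 + 3) * k).choose n : ℕ) : ℝ) →
        (∀ i < s, ρ (i + 1) ≤ (p : ℝ) ^ (β i * ((p ^ 10 * j (i + 1) ^ 4 * p ^ j i * k : ℕ) : ℝ) +
            (r (j i) : ℝ) * m i + 3 * r (j i)) *
          (ρ i * ((n + 1 : ℕ) : ℝ) ^ (j (i + 1) / j i + 3))) →
        (n : ℝ) ^ 10 * ρ s ≤ Real.exp (δ * n) := by
  have hpR : (2 : ℝ) ≤ p := by exact_mod_cast hp
  have hp0 : (0 : ℝ) < p := by linarith
  set Λ := Real.log p with hΛ
  have hΛ0 : 0 < Λ := Real.log_pos (by linarith)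
  -- constants
  set ε : ℝ := δ / (16 * Λ) with hε
  have hε0 : 0 < ε := by positivity
  obtain ⟨e, he⟩ : ∃ e : ℕ, 1 / ε ≤ 2 ^ e := by
    obtain ⟨e, he⟩ := pow_unbounded_of_one_lt (1 / ε) (by norm_num : (1 : ℝ) < 2)
    exact ⟨e, he.le⟩
  obtain ⟨M, hM1, hM⟩ : ∃ M : ℕ, 1 ≤ M ∧ 540 * p * Λ * 8 / δ ≤ M := by
    obtain ⟨M, hM⟩ := exists_nat_ge (540 * p * Λ * 8 / δ)
    refine ⟨M + 1, by omega, ?_⟩
    push_cast
    linarith
  set J₀ : ℕ := max (64 * M) (max (10 * p) (max e Jmin)) with hJ₀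
  have hJM : 64 * M ≤ J₀ := le_max_left _ _
  have hJp : 10 * p ≤ J₀ := (le_max_left _ _).trans (le_max_right _ _)
  have hJe : e ≤ J₀ := ((le_max_left _ _).trans (le_max_right _ _)).trans (le_max_right _ _)
  have hJmin : Jmin ≤ J₀ := ((le_max_right _ _).trans (le_max_right _ _)).trans (le_max_right _ _)
  set K₀ : ℕ := 2 ^ M * J₀ with hK₀
  obtain ⟨n₀, hn₀⟩ := tower M J₀ hM1 hJM
  obtain ⟨n₂, hn₂⟩ := ell_pow
  set A : ℝ := (p : ℝ) ^ (K₀ + 3) with hA
  have hA1 : 1 ≤ A := one_le_pow₀ (by linarith)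
  set η : ℝ := min (1 / A) ((δ / 24) ^ 2 / A) with hη
  have hη0 : 0 < η := lt_min (by positivity) (by positivity)
  have hηA : η * A ≤ 1 := by
    calc η * A ≤ 1 / A * A := by gcongr; exact min_le_left _ _
      _ = 1 := by field_simp
  have hηA2 : η * A ≤ (δ / 24) ^ 2 := by
    calc η * A ≤ (δ / 24) ^ 2 / A * A := by gcongr; exact min_le_right _ _
      _ = (δ / 24) ^ 2 := by field_simp
  have hη1 : η ≤ 1 := by nlinarith
  obtain ⟨L, hL⟩ := exists_nat_ge (24 / δ)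
  refine ⟨η, hη0, hη1, max n₀ (max n₂ (2 ^ (L + 16))), fun n hn k hk1 hk r hr => ?_⟩
  have hn0' := hn₀ n ((le_max_left _ _).trans hn)
  have hl16 := hn₂ n (((le_max_left _ _).trans (le_max_right _ _)).trans hn)
  have hnL : 2 ^ (L + 16) ≤ n := ((le_max_right _ _).trans (le_max_right _ _)).trans hn
  obtain ⟨s, j, hs2, hsl, hj0, hjs, hst, hsum⟩ := hn0' r hr
  set l := Nat.log 2 n + 1 with hl
  have hnpos : 0 < n := lt_of_lt_of_le (by positivity) hnL
  have hnR : (0 : ℝ) < n := by exact_mod_cast hnpos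
  have hnR1 : (1 : ℝ) ≤ n := by exact_mod_cast hnpos
  have hnl : n < 2 ^ l := Nat.lt_pow_succ_log_self (by norm_num) n
  have hlL : L + 16 < l := by
    have h1 : 2 ^ (L + 16) < 2 ^ l := lt_of_le_of_lt hnL hnl
    exact (Nat.pow_lt_pow_iff_right (by norm_num : 1 < 2)).mp h1
  have hlR : (16 : ℝ) ≤ l := by exact_mod_cast (by omega : 16 ≤ l)
  have hlδ : 24 / δ ≤ l := hL.trans (by exact_mod_cast (by omega : L ≤ l))
  have hlog : Real.log ((n + 1 : ℕ) : ℝ) ≤ l := by
    have h1 : ((n + 1 : ℕ) : ℝ) ≤ 2 ^ l := by exact_mod_cast (by omega : n + 1 ≤ 2 ^ l)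
    calc Real.log ((n + 1 : ℕ) : ℝ) ≤ Real.log (2 ^ l) := Real.log_le_log (by positivity) h1
      _ = l * Real.log 2 := Real.log_pow _ _
      _ ≤ l * 1 := by
        gcongr
        have := Real.log_two_lt_d9
        linarith
      _ = l := mul_one _
  have hlog0 : 0 ≤ Real.log ((n + 1 : ℕ) : ℝ) := Real.log_natCast_nonneg _
  -- facts on the scales
  have hji : ∀ i < s, i ≤ j i ∧ J₀ ≤ j i := by
    intro i hi
    obtain ⟨-, -, -, h4⟩ := hst i hi
    have h5 : i < 2 ^ i := Nat.lt_two_pow_self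
    have h6 : 1 ≤ 2 ^ i := Nat.one_le_two_pow
    have h7 : 1 ≤ J₀ := by omega
    constructor <;> nlinarith
  have hj00 := (hji 0 (by omega)).2
  let R : ℕ → ℕ := fun i => p ^ 10 * j (i + 1) ^ 4 * p ^ j i * k
  have hjpos : ∀ i < s, 0 < j (i + 1) := by
    intro i hi
    obtain ⟨h1, -, -, -⟩ := hst i hi
    have := (hji i hi).2
    omega
  have hR0 : ∀ i < s, (0 : ℝ) < R i := by
    intro i hi
    have h1 := hjpos i hi
    have : 0 < R i := by
      simp only [R]
      positivity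
    exact_mod_cast this
  let β : ℕ → ℝ := fun i => ε * ((2 : ℝ) ^ i)⁻¹ * n / R i
  let m : ℕ → ℕ := fun i => 10 * p + 4 * j i + p * j i + i + e
  have hkn : k ≤ n := by
    have h1 : (k : ℝ) ≤ n := hk.trans (by nlinarith)
    exact_mod_cast h1
  refine ⟨s, j, β, m, by omega, by omega, by omega, hjs, fun i hi => (hst i hi).1, ?_, ?_⟩
  · intro i hi
    have h1 := hR0 i hi
    refine ⟨by positivity, ?_⟩
    have h2 : R i ≤ 2 ^ (10 * p + 4 * j i + p * j i) * n := by
      have h3 : p ≤ 2 ^ p := Nat.lt_two_pow_self.le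
      calc R i ≤ (2 ^ p) ^ 10 * (2 ^ j i) ^ 4 * (2 ^ p) ^ j i * n := by
            have := (hst i hi).2.1
            simp only [R]
            gcongr
        _ = 2 ^ (10 * p + 4 * j i + p * j i) * n := by
            rw [← pow_mul, ← pow_mul, ← pow_mul, ← pow_add, ← pow_add]
            congr 2; ring
    have h2R : (R i : ℝ) ≤ 2 ^ (10 * p + 4 * j i + p * j i) * n := by exact_mod_cast h2
    have h4 : (2 : ℝ) ^ m i * β i = (2 ^ (10 * p + 4 * j i + p * j i) * n / R i) * (2 ^ e * ε) := by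
      simp only [m, β]
      rw [pow_add, pow_add]
      field_simp
    have h5 : 1 ≤ (2 : ℝ) ^ (10 * p + 4 * j i + p * j i) * n / R i := by
      rw [le_div_iff₀ h1]; linarith
    have h6 : 1 ≤ (2 : ℝ) ^ e * ε := by
      rw [div_le_iff₀ hε0] at he; exact he
    rw [h4]
    nlinarith
  · intro ρ hρ0 hρ
    -- the costs
    let c : ℕ → ℝ := fun i => Λ * (ε * ((2 : ℝ) ^ i)⁻¹ * n + 270 * p * n / M * ((2 : ℝ) ^ i)⁻¹) +
      ((j (i + 1) / j i : ℕ) + 3 : ℝ) * l
    have hD : p ^ (j 0 + 3) * k ≤ n := by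
      have h1 : ((p ^ (j 0 + 3) * k : ℕ) : ℝ) ≤ n := by
        push_cast
        calc (p : ℝ) ^ (j 0 + 3) * k ≤ A * (η * n) := by
              rw [hA]
              gcongr
              · linarith
          _ = (η * A) * n := by ring
          _ ≤ 1 * n := by gcongr
          _ = n := one_mul _
      exact_mod_cast h1
    have hsqrt : Real.sqrt (n * ((p ^ (j 0 + 3) * k : ℕ) : ℝ)) ≤ δ / 24 * n := by
      apply Real.sqrt_le_iff.mpr
      refine ⟨by positivity, ?_⟩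
      have h1 : ((p ^ (j 0 + 3) * k : ℕ) : ℝ) ≤ (η * A) * n := by
        push_cast
        calc (p : ℝ) ^ (j 0 + 3) * k ≤ A * (η * n) := by
              rw [hA]
              gcongr
              · linarith
          _ = (η * A) * n := by ring
      calc (n : ℝ) * ((p ^ (j 0 + 3) * k : ℕ) : ℝ) ≤ n * ((η * A) * n) := by gcongr
        _ ≤ n * ((δ / 24) ^ 2 * n) := by gcongr
        _ = (δ / 24 * n) ^ 2 := by ring
    have hbase : ρ 0 ≤ Real.exp (l + δ / 8 * n) := by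
      refine hρ0.trans ?_
      push_cast
      have h1 := choose_le_exp hD
      have h2 : ((n : ℝ) + 1) ≤ Real.exp l := by
        have h3 : ((n + 1 : ℕ) : ℝ) = Real.exp (Real.log ((n + 1 : ℕ) : ℝ)) :=
          (Real.exp_log (by positivity)).symm
        push_cast at h3
        rw [h3]
        apply Real.exp_le_exp.mpr
        have h4 := hlog
        push_cast at h4
        exact h4
      rw [Real.exp_add]
      apply mul_le_mul h2 (h1.trans (Real.exp_le_exp.mpr (by linarith))) (by positivity)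
        (Real.exp_pos _).le
    have hind : ∀ i ≤ s, ρ i ≤ Real.exp (l + δ / 8 * n + ∑ t ∈ range i, c t) := by
      intro i
      induction i with
      | zero => intro _; simpa using hbase
      | succ i ih =>
        intro hi
        have hi' : i < s := by omega
        have h1 := ih (by omega)
        refine (hρ i hi').trans ?_
        rw [Finset.sum_range_succ, ← add_assoc, Real.exp_add, mul_comm (Real.exp _)]
        have h2 : (p : ℝ) ^ (β i * ((p ^ 10 * j (i + 1) ^ 4 * p ^ j i * k : ℕ) : ℝ) +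
            (r (j i) : ℝ) * m i + 3 * r (j i)) ≤
            Real.exp (Λ * (ε * ((2 : ℝ) ^ i)⁻¹ * n + 270 * p * n / M * ((2 : ℝ) ^ i)⁻¹)) := by
          rw [Real.rpow_def_of_pos hp0, ← hΛ]
          apply Real.exp_le_exp.mpr
          apply mul_le_mul_of_nonneg_left _ hΛ0.le
          have h3 : β i * ((p ^ 10 * j (i + 1) ^ 4 * p ^ j i * k : ℕ) : ℝ) =
              ε * ((2 : ℝ) ^ i)⁻¹ * n := by
            have h4 := hR0 i hi'
            change ε * ((2 : ℝ) ^ i)⁻¹ * n / R i * R i = _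
            field_simp
          have h5 : (r (j i) : ℝ) * m i + 3 * r (j i) ≤ 270 * p * n / M * ((2 : ℝ) ^ i)⁻¹ := by
            obtain ⟨-, -, h6, -⟩ := hst i hi'
            have h7 : m i + 3 ≤ 5 * p * j i := by
              obtain ⟨h8, h9⟩ := hji i hi'
              simp only [m]
              nlinarith
            have h8 : M * 2 ^ i * (r (j i) * (m i + 3)) ≤ 270 * p * n := by
              calc M * 2 ^ i * (r (j i) * (m i + 3)) ≤ M * 2 ^ i * (r (j i) * (5 * p * j i)) := by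
                    gcongr
                _ = 5 * p * (M * 2 ^ i * (j i * r (j i))) := by ring
                _ ≤ 5 * p * (54 * n) := by gcongr
                _ = 270 * p * n := by ring
            have h8R : (M : ℝ) * 2 ^ i * (r (j i) * (m i + 3)) ≤ 270 * p * n := by
              exact_mod_cast h8
            have hMR : (0 : ℝ) < M := by exact_mod_cast hM1
            rw [← div_eq_mul_inv, div_div, le_div_iff₀ (by positivity)]
            linarith
          rw [h3]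
          linarith
        have h9 : ((n + 1 : ℕ) : ℝ) ^ (j (i + 1) / j i + 3) ≤
            Real.exp (((j (i + 1) / j i : ℕ) + 3 : ℝ) * l) := by
          have h10 : ((n + 1 : ℕ) : ℝ) = Real.exp (Real.log ((n + 1 : ℕ) : ℝ)) :=
            (Real.exp_log (by positivity)).symm
          rw [h10, ← Real.exp_nat_mul]
          apply Real.exp_le_exp.mpr
          push_cast
          gcongr
          have h4 := hlog
          push_cast at h4
          exact h4
        have h11 : (0 : ℝ) ≤ (p : ℝ) ^ (β i * ((p ^ 10 * j (i + 1) ^ 4 * p ^ j i * k : ℕ) : ℝ) +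
            (r (j i) : ℝ) * m i + 3 * r (j i)) := by positivity
        have h12 : ρ i * ((n + 1 : ℕ) : ℝ) ^ (j (i + 1) / j i + 3) ≤
            Real.exp (l + δ / 8 * n + ∑ t ∈ range i, c t) *
              Real.exp (((j (i + 1) / j i : ℕ) + 3 : ℝ) * l) :=
          (mul_le_mul_of_nonneg_right h1 (by positivity)).trans
            (mul_le_mul_of_nonneg_left h9 (Real.exp_pos _).le)
        calc _ ≤ (p : ℝ) ^ (β i * ((p ^ 10 * j (i + 1) ^ 4 * p ^ j i * k : ℕ) : ℝ) +
              (r (j i) : ℝ) * m i + 3 * r (j i)) *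
              (Real.exp (l + δ / 8 * n + ∑ t ∈ range i, c t) *
              Real.exp (((j (i + 1) / j i : ℕ) + 3 : ℝ) * l)) :=
              mul_le_mul_of_nonneg_left h12 h11
          _ ≤ Real.exp (Λ * (ε * ((2 : ℝ) ^ i)⁻¹ * n + 270 * p * n / M * ((2 : ℝ) ^ i)⁻¹)) *
              (Real.exp (l + δ / 8 * n + ∑ t ∈ range i, c t) *
              Real.exp (((j (i + 1) / j i : ℕ) + 3 : ℝ) * l)) :=
              mul_le_mul_of_nonneg_right h2 (by positivity)
          _ = Real.exp (c i) * Real.exp (l + δ / 8 * n + ∑ t ∈ range i, c t) := by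
              simp only [c]
              rw [← Real.exp_add, ← Real.exp_add, ← Real.exp_add]
              congr 1; ring
    have hsumc : ∑ t ∈ range s, c t ≤ δ / 8 * n + δ / 8 * n + (2 * n / l + 3 * (l : ℝ) ^ 2) := by
      have h1 : ∑ t ∈ range s, c t = Λ * (ε * n) * ∑ t ∈ range s, ((2 : ℝ) ^ t)⁻¹ +
          Λ * (270 * p * n / M) * ∑ t ∈ range s, ((2 : ℝ) ^ t)⁻¹ +
          (∑ t ∈ range s, (((j (t + 1) / j t : ℕ) : ℝ))) * l + 3 * s * l := by
        simp only [c]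
        rw [Finset.sum_add_distrib, ← Finset.sum_mul, Finset.sum_add_distrib, Finset.sum_const,
          Finset.card_range, nsmul_eq_mul, ← Finset.mul_sum, Finset.sum_add_distrib,
          ← Finset.mul_sum]
        have h2 : ∑ x ∈ range s, ε * ((2 : ℝ) ^ x)⁻¹ * n =
            ε * n * ∑ x ∈ range s, ((2 : ℝ) ^ x)⁻¹ := by
          rw [Finset.mul_sum]
          exact Finset.sum_congr rfl fun x _ => by ring
        rw [h2]
        ring
      have h2 := sum_half_le s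
      have hMR : (0 : ℝ) < M := by exact_mod_cast hM1
      have h3 : Λ * (ε * n) * ∑ t ∈ range s, ((2 : ℝ) ^ t)⁻¹ ≤ δ / 8 * n := by
        calc Λ * (ε * n) * ∑ t ∈ range s, ((2 : ℝ) ^ t)⁻¹ ≤ Λ * (ε * n) * 2 := by gcongr
          _ = δ / 8 * n := by rw [hε]; field_simp; ring
      have h4 : Λ * (270 * p * n / M) * ∑ t ∈ range s, ((2 : ℝ) ^ t)⁻¹ ≤ δ / 8 * n := by
        calc Λ * (270 * p * n / M) * ∑ t ∈ range s, ((2 : ℝ) ^ t)⁻¹
            ≤ Λ * (270 * p * n / M) * 2 := by gcongr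
          _ = 540 * p * Λ / M * n := by ring
          _ ≤ δ / 8 * n := by
            apply mul_le_mul_of_nonneg_right _ hnR.le
            rw [div_le_iff₀ hMR]
            rw [div_le_iff₀ hδ] at hM
            linarith
      have h5 : (∑ t ∈ range s, (((j (t + 1) / j t : ℕ) : ℝ))) * l ≤ 2 * n / l := by
        rw [le_div_iff₀ (by linarith)]
        have h6 : ((∑ t ∈ range s, (j (t + 1) / j t : ℕ) : ℕ) : ℝ) * (l : ℝ) ^ 2 ≤ 2 * n := by
          exact_mod_cast hsum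
        rw [Nat.cast_sum] at h6
        calc _ = (∑ t ∈ range s, (((j (t + 1) / j t : ℕ) : ℝ))) * (l : ℝ) ^ 2 := by ring
          _ ≤ 2 * n := h6
      have h7 : 3 * (s : ℝ) * l ≤ 3 * (l : ℝ) ^ 2 := by
        have : (s : ℝ) ≤ l := by exact_mod_cast hsl
        nlinarith
      rw [h1]
      linarith
    have hlast : (l : ℝ) + 3 * (l : ℝ) ^ 2 + 10 * l ≤ n / l := by
      rw [le_div_iff₀ (by linarith)]
      have h1 : ((l : ℝ)) ^ 16 ≤ n := by exact_mod_cast hl16
      have h2 : (l : ℝ) ^ 4 ≤ (l : ℝ) ^ 16 := pow_le_pow_right₀ (by linarith) (by norm_num)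
      have h3 : ((l : ℝ) + 3 * (l : ℝ) ^ 2 + 10 * l) * l ≤ (l : ℝ) ^ 4 := by
        have h4 : (l : ℝ) + 3 * (l : ℝ) ^ 2 + 10 * l ≤ 16 * (l : ℝ) ^ 2 := by nlinarith
        calc ((l : ℝ) + 3 * (l : ℝ) ^ 2 + 10 * l) * l ≤ 16 * (l : ℝ) ^ 2 * l := by gcongr
          _ ≤ l * (l : ℝ) ^ 2 * l := by gcongr
          _ = (l : ℝ) ^ 4 := by ring
      linarith
    have hnl2 : 3 * (n / l : ℝ) ≤ δ / 8 * n := by
      have h1 : (n : ℝ) / l ≤ n / (24 / δ) := by gcongr
      have h2 : (n : ℝ) / (24 / δ) = δ / 24 * n := by field_simp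
      rw [h2] at h1
      linarith
    have hn10 : (n : ℝ) ^ 10 ≤ Real.exp (10 * l) := by
      have h1 : (n : ℝ) ≤ Real.exp l := by
        have h2 : Real.log n ≤ l := by
          refine le_trans (Real.log_le_log hnR ?_) hlog
          push_cast; linarith
        calc (n : ℝ) = Real.exp (Real.log n) := (Real.exp_log hnR).symm
          _ ≤ Real.exp l := Real.exp_le_exp.mpr h2
      calc (n : ℝ) ^ 10 ≤ (Real.exp l) ^ 10 := pow_le_pow_left₀ hnR.le h1 10
        _ = Real.exp (10 * l) := by rw [← Real.exp_nat_mul]; norm_num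
    calc (n : ℝ) ^ 10 * ρ s ≤ (n : ℝ) ^ 10 * Real.exp (l + δ / 8 * n + ∑ t ∈ range s, c t) := by
          gcongr
          exact hind s le_rfl
      _ ≤ Real.exp (10 * l) * Real.exp (l + δ / 8 * n + ∑ t ∈ range s, c t) := by gcongr
      _ = Real.exp (10 * l + (l + δ / 8 * n + ∑ t ∈ range s, c t)) := (Real.exp_add _ _).symm
      _ ≤ Real.exp (δ * n) := by
        apply Real.exp_le_exp.mpr
        have h1 : 2 * (n : ℝ) / l = 2 * (n / l) := by ring
        have h2 : (0 : ℝ) < δ * n := by positivity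
        rw [h1] at hsumc
        linarith

end Pool.Agent.Helper32.RK
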